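import Pool.Agent.Helper66_Spread.Grid

set_option autoImplicit false

namespace Pool.Agent.Helper66.Spread

open Real

theorem trap {z : ℝ} (hz : 0 < z) : log (z + 1) - log z ≤ 1 / 2 * (1 / z + 1 / (z + 1)) := by
  have hx : (0 : ℝ) ≤ 1 / (2 * z + 1) := by positivity
  have hx1 : 1 / (2 * z + 1) < 1 := by
    rw [div_lt_one (by linarith)]; linarith
  have h := log_div_le_sum_range_add hx hx1 0
  simp only [Finset.range_zero, Finset.sum_empty, zero_add, mul_zero, pow_one] at h
  have e1 : (1 + 1 / (2 * z + 1)) / (1 - 1 / (2 * z + 1)) = (z + 1) / z := by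
    have : (2 * z + 1) ≠ 0 := by positivity
    have h2 : (1 - 1 / (2 * z + 1)) ≠ 0 := by
      have : 0 < 1 - 1 / (2 * z + 1) := by linarith
      exact this.ne'
    rw [div_eq_div_iff h2 hz.ne']
    field_simp
    ring
  have e2 : 1 / (2 * z + 1) / (1 - (1 / (2 * z + 1)) ^ 2) = 1 / 4 * (1 / z + 1 / (z + 1)) := by
    have h1 : (2 * z + 1) ≠ 0 := by positivity
    have h3 : (1 - (1 / (2 * z + 1)) ^ 2) = 4 * z * (z + 1) / (2 * z + 1) ^ 2 := by
      field_simp; ring
    rw [h3]
    field_simp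
    ring
  rw [e1, e2, log_div (by positivity) (by positivity)] at h
  linarith

theorem sum_ge_log {y : ℝ} (hy : 0 < y) (n : ℕ) :
    log (n + y) - log y + 1 / 2 * (1 / y - 1 / (n + y)) ≤
      ∑ a ∈ Finset.range n, 1 / ((a : ℝ) + y) := by
  induction n with
  | zero => simp
  | succ n ih =>
    rw [Finset.sum_range_succ]
    have h := trap (z := (n : ℝ) + y) (by positivity)
    push_cast
    have e : (n : ℝ) + 1 + y = (n : ℝ) + y + 1 := by ring
    rw [e]
    linarith

theorem sum_ge_log' {y : ℝ} (hy : 1 / 2 ≤ y) {n : ℕ} (hn : 1 ≤ n) :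
    log n - log y + 1 / (2 * y) ≤ ∑ a ∈ Finset.range n, 1 / ((a : ℝ) + y) := by
  have hnr : (1 : ℝ) ≤ n := by exact_mod_cast hn
  refine le_trans ?_ (sum_ge_log (by linarith) n)
  have h1 := one_sub_inv_le_log_of_pos (x := ((n : ℝ) + y) / n) (by positivity)
  rw [log_div (by positivity) (by positivity)] at h1
  have h2 : 1 - (((n : ℝ) + y) / n)⁻¹ = y / (n + y) := by
    have : (n : ℝ) + y ≠ 0 := by positivity
    rw [inv_div]; field_simp; ring
  have h3 : 1 / 2 * (1 / ((n : ℝ) + y)) ≤ y / (n + y) := by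
    rw [mul_one_div]
    exact div_le_div_of_nonneg_right hy (by positivity)
  have h4 : 1 / (2 * y) = 1 / 2 * (1 / y) := by field_simp
  linarith

theorem Hr_64 : Hr 64 ≤ 4.743892 ∧ 4.7438 ≤ Hr 64 := by
  unfold Hr
  constructor <;> norm_num [Finset.sum_range_succ]

theorem Hr_le_log {n : ℕ} (hn : 64 ≤ n) : Hr n ≤ log n + 0.58501 := by
  induction n, hn using Nat.le_induction with
  | base =>
    have h1 : log ((64 : ℕ) : ℝ) = 6 * log 2 := by
      rw [show ((64 : ℕ) : ℝ) = 2 ^ 6 by norm_num, log_pow]; norm_num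
    rw [h1]
    linarith [log_two_gt_d9, Hr_64.1]
  | succ n hn ih =>
    have hnr : (64 : ℝ) ≤ n := by exact_mod_cast hn
    have h1 := one_sub_inv_le_log_of_pos (x := ((n : ℝ) + 1) / n) (by positivity)
    rw [log_div (by positivity) (by positivity)] at h1
    have h2 : 1 - (((n : ℝ) + 1) / n)⁻¹ = 1 / (n + 1) := by
      rw [inv_div]; field_simp; ring
    have h3 : Hr (n + 1) = Hr n + 1 / ((n : ℝ) + 1) := by
      unfold Hr; rw [Finset.sum_range_succ]
    push_cast
    linarith

theorem log_ge {n : ℕ} (hn : 64 ≤ n) : 4.15888 ≤ log (n : ℝ) := by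
  have h1 : log ((64 : ℕ) : ℝ) = 6 * log 2 := by
    rw [show ((64 : ℕ) : ℝ) = 2 ^ 6 by norm_num, log_pow]; norm_num
  have h2 : log ((64 : ℕ) : ℝ) ≤ log (n : ℝ) :=
    log_le_log (by norm_num) (by exact_mod_cast hn)
  linarith [log_two_gt_d9]

theorem Hr_mono {m n : ℕ} (h : m ≤ n) : Hr m ≤ Hr n := by
  unfold Hr
  exact Finset.sum_le_sum_of_subset_of_nonneg (Finset.range_mono h) (fun i _ _ => by positivity)

theorem H2_le {n : ℕ} (hn : 64 ≤ n) :
    ∑ i ∈ Finset.range n, 1 / ((i : ℝ) + 1) ^ 2 ≤ (1.64507 : ℝ) - 1 / (n : ℝ) := by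
  induction n, hn using Nat.le_induction with
  | base => norm_num [Finset.sum_range_succ]
  | succ n hn ih =>
    have hnr : (64 : ℝ) ≤ n := by exact_mod_cast hn
    rw [Finset.sum_range_succ]
    have : 1 / ((n : ℝ) + 1) ^ 2 ≤ 1 / n - 1 / (n + 1) := by
      rw [div_sub_div _ _ (by positivity) (by positivity),
        div_le_div_iff₀ (by positivity) (by positivity)]
      nlinarith
    push_cast
    linarith

theorem c2_aux {K : ℝ} (hK : 2.8 ≤ K) :
    (1.41 : ℝ) ≤ (K + 1) * ((3 * K + 1) * (K - 1) / (K ^ 2 * (K + 3))) := by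
  rw [mul_div_assoc', le_div_iff₀ (by positivity)]
  obtain ⟨u, rfl⟩ : ∃ u, K = 2.8 + u := ⟨K - 2.8, by ring⟩
  have hu : 0 ≤ u := by linarith
  have h2 : 0 ≤ u ^ 2 := by positivity
  have h3 : 0 ≤ u ^ 3 := by positivity
  ring_nf
  nlinarith

theorem b2_aux {K : ℝ} (hK6 : 6.15 ≤ K) :
    (2 * K ^ 2 + K + 1) ^ 2 ≤ 0.36 * (K * (K - 1)) * (4 * K) ^ 2 := by
  obtain ⟨u, rfl⟩ : ∃ u, K = 6.15 + u := ⟨K - 6.15, by ring⟩
  have hu : 0 ≤ u := by linarith
  have h2 : 0 ≤ u ^ 2 := by positivity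
  have h3 : 0 ≤ u ^ 3 := by positivity
  have h4 : 0 ≤ u ^ 4 := by positivity
  ring_nf
  nlinarith

/-- the case `s ≤ α`, `α ≥ 64`, `K ≥ 2.8` -/
theorem ana1 {al : ℕ} {K : ℝ} (h64 : 64 ≤ al) (hK : 2.8 ≤ K) (hV2 : K * (K - 1) ≤ (al : ℝ)) :
    (1 - K * (K - 1) / al) * Hr al + K * (K - 1) / al ≤
      ∑ a ∈ Finset.range al, 1 / ((K + 3) / (2 * (K + 1)) * a + (2 * K ^ 2 + K + 1) / (4 * K)) := by
  have halr : (64 : ℝ) ≤ al := by exact_mod_cast h64
  have hKp : 0 < K := by linarith
  set y : ℝ := (2 * K ^ 2 + K + 1) * (K + 1) / (2 * K * (K + 3)) with hy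
  have hyK : y = K - (3 * K + 1) * (K - 1) / (2 * K * (K + 3)) := by
    rw [hy]; field_simp; ring
  have hyle : y ≤ K := by
    rw [hyK]
    have : 0 ≤ (3 * K + 1) * (K - 1) / (2 * K * (K + 3)) := by
      apply div_nonneg (mul_nonneg (by linarith) (by linarith)) (by positivity)
    linarith
  have hyp : 0 < y := by rw [hy]; positivity
  have hyhalf : 1 / 2 ≤ y := by
    rw [hy, div_le_div_iff₀ (by norm_num) (by positivity)]
    nlinarith [mul_pos hKp hKp, mul_pos (mul_pos hKp hKp) hKp]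
  have hsum : ∑ a ∈ Finset.range al,
      1 / ((K + 3) / (2 * (K + 1)) * a + (2 * K ^ 2 + K + 1) / (4 * K)) =
      2 * (K + 1) / (K + 3) * ∑ a ∈ Finset.range al, 1 / ((a : ℝ) + y) := by
    rw [Finset.mul_sum]
    apply Finset.sum_congr rfl
    intro a _
    rw [hy]
    have : (0 : ℝ) ≤ a := by positivity
    field_simp
    ring
  rw [hsum]
  have h1 := sum_ge_log' hyhalf (n := al) (by omega)
  have h2 := Hr_le_log h64
  have h3 := log_ge h64
  set L := log (al : ℝ) with hL
  set x := K * (K - 1) / al with hx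
  have hx0 : 0 ≤ x := div_nonneg (mul_nonneg hKp.le (by linarith)) (by linarith)
  have hx1 : x ≤ 1 := by rw [hx, div_le_one (by linarith)]; exact hV2
  have h4 : (1 - x) * Hr al ≤ (1 - x) * (L + 0.58501) :=
    mul_le_mul_of_nonneg_left h2 (by linarith)
  have hrho : 0 < 2 * (K + 1) / (K + 3) := by positivity
  have h5 := mul_le_mul_of_nonneg_left h1 hrho.le
  refine le_trans ?_ h5
  refine le_trans (add_le_add h4 le_rfl) ?_
  -- now a pure inequality
  set t := 3.7 * (K * (K + 3)) with ht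
  have htp : 0 < t := by positivity
  have hLt : log t + 1 - t / al ≤ L := by
    have := one_sub_inv_le_log_of_pos (x := (al : ℝ) / t) (by positivity)
    rw [log_div (by positivity) htp.ne', inv_div] at this
    linarith
  have hlogt : 2 * log K + 6 / (2 * K + 3) + 1.305 ≤ log t := by
    have e1 : log t = log 3.7 + (log K + log (K + 3)) := by
      rw [ht, log_mul (by norm_num) (by positivity), log_mul (by positivity) (by positivity)]
    have e2 : log (K + 3) = log K + log (1 + 3 / K) := by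
      rw [← log_mul (by positivity) (by positivity)]
      congr 1
      field_simp
    have e3 := le_log_one_add_of_nonneg (x := 3 / K) (by positivity)
    have e4 : 2 * (3 / K) / (3 / K + 2) = 6 / (2 * K + 3) := by
      field_simp
      ring
    have e5 : (1.305 : ℝ) ≤ log 3.7 := by
      have f1 : log 3.7 = 2 * log 2 + log 0.925 := by
        rw [show (3.7 : ℝ) = 2 ^ 2 * 0.925 by norm_num, log_mul (by norm_num) (by norm_num), log_pow]
        norm_num
      have f2 := one_sub_inv_le_log_of_pos (x := 0.925) (by norm_num)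
      have f3 : (1 : ℝ) - (0.925)⁻¹ ≥ -0.08109 := by norm_num
      linarith [log_two_gt_d9]
    rw [e4] at e3
    linarith
  have hlogy : log y ≤ log K - (3 * K + 1) * (K - 1) / (2 * K ^ 2 * (K + 3)) := by
    have e1 := log_le_sub_one_of_pos (x := y / K) (by positivity)
    rw [log_div hyp.ne' hKp.ne'] at e1
    have e2 : y / K - 1 = -((3 * K + 1) * (K - 1) / (2 * K ^ 2 * (K + 3))) := by
      rw [hyK]; field_simp; ring
    linarith
  have hinvy : 1 / (2 * K) ≤ 1 / (2 * y) := by
    apply one_div_le_one_div_of_le (by positivity) (by linarith)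
  have hlogK : log K ≤ K / 3 + 0.0986123 := by
    have e1 := log_le_sub_one_of_pos (x := K / 3) (by positivity)
    rw [log_div hKp.ne' (by norm_num)] at e1
    linarith [log_three_lt_d9]
  -- main algebra
  have hr : 2 * (K + 1) / (K + 3) = 1 + (K - 1) / (K + 3) := by field_simp; ring
  have key1 : (K - 1) / (K + 3) * (log t + 1) ≤ (K - 1) / (K + 3) * L + x * (L - 0.41499) := by
    have a1 : (K - 1) / (K + 3) * (log t + 1 - t / al) ≤ (K - 1) / (K + 3) * L :=
      mul_le_mul_of_nonneg_left hLt (div_nonneg (by linarith) (by linarith))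
    have a2 : (K - 1) / (K + 3) * (t / al) = 3.7 * x := by
      rw [ht, hx]; field_simp
    have a3 : x * 3.7 ≤ x * (L - 0.41499) := mul_le_mul_of_nonneg_left (by linarith) hx0
    nlinarith
  have key2 : 2 * (K + 1) / (K + 3) * (log y - 1 / (2 * y)) + 0.58501 ≤
      (K - 1) / (K + 3) * (log t + 1) := by
    have b1 : 2 * (K + 1) / (K + 3) * (log y - 1 / (2 * y)) ≤ 2 * (K + 1) / (K + 3) *
        (log K - (3 * K + 1) * (K - 1) / (2 * K ^ 2 * (K + 3)) - 1 / (2 * K)) :=
      mul_le_mul_of_nonneg_left (by linarith) hrho.le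
    have b2 : (K - 1) / (K + 3) * (2 * log K + 6 / (2 * K + 3) + 1.305 + 1) ≤
        (K - 1) / (K + 3) * (log t + 1) :=
      mul_le_mul_of_nonneg_left (by linarith) (div_nonneg (by linarith) (by linarith))
    refine le_trans (add_le_add b1 le_rfl) (le_trans ?_ b2)
    have c1 : (1.25 : ℝ) ≤ (K - 1) * (6 / (2 * K + 3)) := by
      rw [mul_div_assoc', le_div_iff₀ (by positivity)]; nlinarith
    have c2 := c2_aux hK
    have c3 : (1 : ℝ) ≤ (K + 1) * (1 / K) := by
      rw [mul_one_div, le_div_iff₀ hKp]; linarith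
    have c4 : 2 * (K + 1) * (log K - (3 * K + 1) * (K - 1) / (2 * K ^ 2 * (K + 3)) - 1 / (2 * K)) +
        0.58501 * (K + 3) ≤ (K - 1) * (2 * log K + 6 / (2 * K + 3) + 1.305 + 1) := by
      have d1 : 2 * (K + 1) * ((3 * K + 1) * (K - 1) / (2 * K ^ 2 * (K + 3))) =
          (K + 1) * ((3 * K + 1) * (K - 1) / (K ^ 2 * (K + 3))) := by field_simp
      have d2 : 2 * (K + 1) * (1 / (2 * K)) = (K + 1) * (1 / K) := by field_simp
      have : 2 * (K + 1) * (log K - (3 * K + 1) * (K - 1) / (2 * K ^ 2 * (K + 3)) - 1 / (2 * K)) =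
          2 * (K + 1) * log K - (K + 1) * ((3 * K + 1) * (K - 1) / (K ^ 2 * (K + 3))) -
            (K + 1) * (1 / K) := by
        rw [← d1, ← d2]; ring
      rw [this]
      have x1 : (K - 1) * (2 * log K + 6 / (2 * K + 3) + 1.305 + 1) =
        2 * (K - 1) * log K + (K - 1) * (6 / (2 * K + 3)) + 2.305 * (K - 1) := by ring
      have x2 : 2 * (K + 1) * log K = 2 * (K - 1) * log K + 4 * log K := by ring
      rw [x1, x2]
      linarith
    have e0 : 2 * (K + 1) / (K + 3) *
        (log K - (3 * K + 1) * (K - 1) / (2 * K ^ 2 * (K + 3)) - 1 / (2 * K)) + 0.58501 =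
        (2 * (K + 1) * (log K - (3 * K + 1) * (K - 1) / (2 * K ^ 2 * (K + 3)) - 1 / (2 * K)) +
        0.58501 * (K + 3)) / (K + 3) := by
      rw [add_div, mul_div_assoc (0.58501 : ℝ), div_self (by positivity)]; ring
    rw [e0, div_le_iff₀ (by positivity)]
    have e1 : (K - 1) / (K + 3) * (2 * log K + 6 / (2 * K + 3) + 1.305 + 1) * (K + 3) =
        (K - 1) * (2 * log K + 6 / (2 * K + 3) + 1.305 + 1) := by
      field_simp
    rw [e1]
    exact c4
  have fin : (1 - x) * (L + 0.58501) + x ≤ 2 * (K + 1) / (K + 3) * L -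
      2 * (K + 1) / (K + 3) * (log y - 1 / (2 * y)) := by
    have : 2 * (K + 1) / (K + 3) * L = L + (K - 1) / (K + 3) * L := by rw [hr]; ring
    rw [this]
    linarith
  linarith

/-- the case `s > α`, `α ≥ 64` -/
theorem ana2 {al : ℕ} {K : ℝ} (h64 : 64 ≤ al) (hK : 1 ≤ K) (hV1 : (al : ℝ) / 2 ≤ K * (K - 1))
    (hV2 : K * (K - 1) ≤ (al : ℝ)) :
    (1 - K * (K - 1) / al) * Hr al + K * (K - 1) / al ≤
      ∑ a ∈ Finset.range al, 1 / (1 * (a : ℝ) + (2 * K ^ 2 + K + 1) / (4 * K)) := by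
  have halr : (64 : ℝ) ≤ al := by exact_mod_cast h64
  have hKp : 0 < K := by linarith
  have hK6 : 6.15 ≤ K := by nlinarith
  set B : ℝ := (2 * K ^ 2 + K + 1) / (4 * K) with hB
  have hBp : 0 < B := by rw [hB]; positivity
  have hBhalf : 1 / 2 ≤ B := by
    rw [hB, div_le_div_iff₀ (by norm_num) (by positivity)]; nlinarith
  have h1 := sum_ge_log' hBhalf (n := al) (by omega)
  have h2 := Hr_le_log h64
  have h3 := log_ge h64
  simp only [one_mul]
  refine le_trans ?_ h1
  set L := log (al : ℝ) with hL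
  set x := K * (K - 1) / al with hx
  have hx0 : 1 / 2 ≤ x := by rw [hx, le_div_iff₀ (by linarith)]; linarith
  have hx1 : x ≤ 1 := by rw [hx, div_le_one (by linarith)]; exact hV2
  have h4 : (1 - x) * Hr al ≤ (1 - x) * (L + 0.58501) :=
    mul_le_mul_of_nonneg_left h2 (by linarith)
  have hB2 : B ^ 2 ≤ 0.36 * (x * al) := by
    have e : x * al = K * (K - 1) := by rw [hx]; field_simp
    rw [e, hB, div_pow, div_le_iff₀ (by positivity)]
    exact b2_aux hK6
  have hlogB : 2 * log B ≤ -1 + log x + L := by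
    have e1 : log (B ^ 2) ≤ log (0.36 * (x * al)) := log_le_log (by positivity) hB2
    rw [log_pow, log_mul (by norm_num) (by positivity), log_mul (by positivity) (by positivity)] at e1
    have e2 : log 0.36 ≤ -1 := by
      have f1 : log 0.36 = - (2 * log (1 + 2 / 3)) := by
        rw [show (0.36 : ℝ) = ((1 + 2 / 3) ^ 2)⁻¹ by norm_num, log_inv, log_pow]; norm_num
      have f2 := le_log_one_add_of_nonneg (x := 2 / 3) (by norm_num)
      have f3 : (2 * (2 / 3) / (2 / 3 + 2) : ℝ) = 1 / 2 := by norm_num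
      rw [f3] at f2
      linarith
    push_cast at e1
    linarith
  have hlogx : log x ≤ 2 * x - 1 - 0.69314 := by
    have e1 := log_le_sub_one_of_pos (x := x * 2) (by linarith)
    rw [log_mul (by linarith) (by norm_num)] at e1
    linarith [log_two_gt_d9]
  have h6 : 0 < 1 / (2 * B) := by positivity
  have h7 : 0 ≤ (x - 1 / 2) * (L - 4.15888) := mul_nonneg (by linarith) (by linarith)
  nlinarith

end Pool.Agent.Helper66.Spread
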