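import Pool.Agent.Helper66_Spread.Ana

set_option autoImplicit false

namespace Pool.Agent.Helper66.Spread

open Real

theorem caseA {al : ℕ} {p M k0 : ℝ} (hp0 : 0 ≤ p) (hp1 : p < 1) (hM : 0 ≤ M) (hMk : M ≤ p * k0)
    (hk : k0 * ∑ i ∈ Finset.range al, 1 / ((i : ℝ) + 1) ^ 2 ≤ Hr al) :
    Hr al ≤ ∑ a ∈ Finset.range al, 1 / (((a : ℝ) + 1) * (1 - p) + M) := by
  have h1 : ∀ a ∈ Finset.range al,
      1 / ((a : ℝ) + 1) + p * (1 / ((a : ℝ) + 1) - k0 * (1 / ((a : ℝ) + 1) ^ 2)) ≤
      1 / (((a : ℝ) + 1) * (1 - p) + M) := by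
    intro a _
    have hb : (0 : ℝ) < (a : ℝ) + 1 := by positivity
    generalize (a : ℝ) + 1 = b at hb
    have he : 0 < b * (1 - p) + M := by
      have := mul_pos hb (sub_pos.mpr hp1); linarith
    generalize hE : b * (1 - p) + M = e at he
    have h2 : (2 * b - e) / b ^ 2 ≤ 1 / e := by
      rw [div_le_div_iff₀ (by positivity) he]
      nlinarith [sq_nonneg (b - e)]
    refine le_trans ?_ h2
    have h3 : 1 / b + p * (1 / b - k0 * (1 / b ^ 2)) = (b + p * (b - k0)) / b ^ 2 := by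
      field_simp
    rw [h3]
    apply div_le_div_of_nonneg_right _ (by positivity)
    rw [← hE]; nlinarith
  refine le_trans ?_ (Finset.sum_le_sum h1)
  rw [Finset.sum_add_distrib, ← Finset.mul_sum, Finset.sum_sub_distrib, ← Finset.mul_sum]
  have : ∑ i ∈ Finset.range al, 1 / ((i : ℝ) + 1) = Hr al := rfl
  rw [this]
  nlinarith [mul_nonneg hp0 (sub_nonneg.mpr hk)]

theorem Hr_add_le {al s : ℕ} (h : 1 ≤ al) : Hr (al + s) ≤ Hr al + s / al := by
  have halr : (1 : ℝ) ≤ al := by exact_mod_cast h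
  induction s with
  | zero => simp
  | succ s ih =>
    have h3 : Hr (al + s + 1) = Hr (al + s) + 1 / (((al + s : ℕ) : ℝ) + 1) := by
      unfold Hr; rw [Finset.sum_range_succ]
    rw [← add_assoc, h3]
    have h4 : 1 / (((al + s : ℕ) : ℝ) + 1) ≤ 1 / al := by
      apply one_div_le_one_div_of_le (by linarith)
      push_cast
      have : (0 : ℝ) ≤ s := by positivity
      linarith
    push_cast at h4 ⊢
    rw [add_div]
    linarith

theorem pBound {p M V K : ℝ} (hK : 1 < K) (hKK : K * (K - 1) = V) (hMK : M ≤ p * K)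
    (h : 1 / 2 ≤ p + 2 * M / V) : 1 - p ≤ (K + 3) / (2 * (K + 1)) := by
  have hVp : 0 < K * (K - 1) := mul_pos (by linarith) (by linarith)
  have h1 : 2 * M / V ≤ 2 * p / (K - 1) := by
    rw [← hKK, div_le_div_iff₀ hVp (by linarith)]
    nlinarith [mul_nonneg (sub_nonneg.mpr hMK) (by linarith : (0:ℝ) ≤ K - 1)]
  have h3 : 1 / 2 ≤ p + 2 * p / (K - 1) := by linarith
  have h4 : p + 2 * p / (K - 1) = p * (K + 1) / (K - 1) := by
    have : K - 1 ≠ 0 := by linarith
    field_simp; ring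
  rw [h4, div_le_div_iff₀ (by norm_num) (by linarith)] at h3
  rw [le_div_iff₀ (by linarith)]
  nlinarith

theorem vb0 {a s : ℝ} (ha : 2 ≤ a) (hs : 1 ≤ s) : a / (a + 1) ≤ a * s / (a + s) := by
  rw [div_le_div_iff₀ (by linarith) (by linarith)]
  have := mul_nonneg (mul_nonneg (by linarith : (0:ℝ) ≤ a) (by linarith : (0:ℝ) ≤ a))
        (by linarith : (0:ℝ) ≤ s - 1)
  nlinarith

theorem vb1 {a s : ℝ} (ha : 2 ≤ a) (hs : 1 ≤ s) : a * s / (a + s) ≤ a := by
  rw [div_le_iff₀ (by linarith)]; nlinarith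

theorem vb2 {a s : ℝ} (ha : 2 ≤ a) (hs : 1 ≤ s) (h : s ≤ a) : a * s / (a + s) ≤ a / 2 := by
  rw [div_le_div_iff₀ (by linarith) (by norm_num)]; nlinarith

theorem vb3 {a s : ℝ} (ha : 2 ≤ a) (hs : 1 ≤ s) (h : a ≤ s) : a / 2 ≤ a * s / (a + s) := by
  rw [div_le_div_iff₀ (by norm_num) (by linarith)]; nlinarith

theorem keyT {al s : ℕ} (h2 : 2 ≤ al) (hs : 1 ≤ s) {p M V : ℝ} (hV : V = al * s / (al + s))
    (hp0 : 0 ≤ p) (hp1 : p < 1) (hM : 0 ≤ M) (hb : M ^ 2 ≤ p * (p * V + M)) (hc : 4 * M ^ 2 ≤ V)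
    (ha : s ≤ al → 1 / 2 ≤ p + 2 * M / V) :
    (al : ℝ) / (al + s) * Hr (al + s) ≤
      ∑ a ∈ Finset.range al, 1 / (((a : ℝ) + 1) * (1 - p) + M) := by
  have halr : (2 : ℝ) ≤ al := by exact_mod_cast h2
  have hsr : (1 : ℝ) ≤ s := by exact_mod_cast hs
  have hVp : 0 < V := by rw [hV]; positivity
  set K : ℝ := (1 + √(1 + 4 * V)) / 2 with hKd
  have hsq : √(1 + 4 * V) ^ 2 = 1 + 4 * V := Real.sq_sqrt (by linarith)
  have hKK : K * (K - 1) = V := by rw [hKd]; nlinarith
  have hK1 : 1 < K := by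
    have : 1 < √(1 + 4 * V) := by
      apply Real.lt_sqrt_of_sq_lt; linarith
    rw [hKd]; linarith
  have hMK : M ≤ p * K := by
    have h : (M - p * K) * (M + p * (K - 1)) ≤ 0 := by
      have e1 : (M - p * K) * (M + p * (K - 1)) = M ^ 2 - p * M - p ^ 2 * (K * (K - 1)) := by ring
      have e2 : p * (p * V + M) = p ^ 2 * V + p * M := by ring
      rw [e1, hKK]; linarith
    by_contra hcon
    rw [not_le] at hcon
    have h1 : 0 < M := lt_of_le_of_lt (mul_nonneg hp0 (by linarith)) hcon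
    have h3 : 0 < M + p * (K - 1) := by
      have := mul_nonneg hp0 (by linarith : (0 : ℝ) ≤ K - 1); linarith
    have := mul_pos (sub_pos.mpr hcon) h3
    linarith
  have hx : K * (K - 1) / al = s / (al + s) := by
    rw [hKK, hV]; field_simp
  have hH1 := one_le_Hr (al := al) (by omega)
  -- right-hand side
  have hR : (al : ℝ) / (al + s) * Hr (al + s) ≤
      (1 - K * (K - 1) / al) * Hr al + K * (K - 1) / al := by
    rw [hx]
    have h := Hr_add_le (al := al) (s := s) (by omega)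
    have e1 : (al : ℝ) / (al + s) * Hr (al + s) ≤ (al : ℝ) / (al + s) * (Hr al + s / al) :=
      mul_le_mul_of_nonneg_left h (by positivity)
    refine le_trans e1 (le_of_eq ?_)
    field_simp
    ring
  -- e_1
  have hMs : 2 * M ≤ K - 1 / 2 := by
    have : (2 * M) ^ 2 ≤ (K - 1 / 2) ^ 2 := by nlinarith
    exact le_of_sq_le_sq this (by linarith)
  have hB : 1 - p + M ≤ (2 * K ^ 2 + K + 1) / (4 * K) := by
    have hpM : M / K ≤ p := by rw [div_le_iff₀ (by linarith)]; exact hMK
    have e1 : 1 - p + M ≤ 1 + M * (K - 1) / K := by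
      have : M * (K - 1) / K = M - M / K := by field_simp
      rw [this]; linarith
    have e2 : 1 + M * (K - 1) / K ≤ (2 * K ^ 2 + K + 1) / (4 * K) := by
      have e3 : M * (K - 1) ≤ (K - 1 / 2) / 2 * (K - 1) :=
        mul_le_mul_of_nonneg_right (by linarith) (by linarith)
      have e4 : 1 + M * (K - 1) / K = (K + M * (K - 1)) / K := by field_simp
      rw [e4, div_le_div_iff₀ (by linarith) (by linarith)]
      nlinarith
    linarith
  have bound : ∀ A : ℝ, 1 - p ≤ A →
      ∑ a ∈ Finset.range al, 1 / (A * (a : ℝ) + (2 * K ^ 2 + K + 1) / (4 * K)) ≤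
      ∑ a ∈ Finset.range al, 1 / (((a : ℝ) + 1) * (1 - p) + M) := by
    intro A hA
    apply Finset.sum_le_sum
    intro a _
    have har : (0 : ℝ) ≤ a := by positivity
    apply one_div_le_one_div_of_le
    · have := mul_pos (by linarith : (0 : ℝ) < (a : ℝ) + 1) (sub_pos.mpr hp1); linarith
    · have := mul_le_mul_of_nonneg_right hA har
      nlinarith
  have hV0 : (al : ℝ) / (al + 1) ≤ K * (K - 1) := by
    rw [hKK, hV]; exact vb0 halr hsr
  have hVal : K * (K - 1) ≤ (al : ℝ) := by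
    rw [hKK, hV]; exact vb1 halr hsr
  rcases Nat.lt_or_ge al 64 with hsm | hbig
  · -- small alpha
    rcases Nat.le_or_ge s al with hsa | hsa
    · have hsar : (s : ℝ) ≤ al := by exact_mod_cast hsa
      have hV2 : K * (K - 1) ≤ (al : ℝ) / 2 := by
        rw [hKK, hV]; exact vb2 halr hsr hsar
      exact le_trans hR (le_trans (grid1 al K h2 (by omega) hK1.le hV0 hV2)
        (bound _ (pBound hK1 hKK hMK (ha hsa))))
    · have hsar : (al : ℝ) ≤ s := by exact_mod_cast hsa
      have hV2 : (al : ℝ) / 2 ≤ K * (K - 1) := by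
        rw [hKK, hV]; exact vb3 halr hsr hsar
      exact le_trans hR (le_trans (grid2 al K h2 (by omega) hK1.le hV2 hVal)
        (bound _ (by linarith)))
  · -- large alpha
    rcases le_total K 2.8 with hK28 | hK28
    · have hA := caseA (al := al) (p := p) (M := M) (k0 := 2.8) hp0 hp1 hM
        (le_trans hMK (mul_le_mul_of_nonneg_left hK28 hp0)) (by
          have h1 := H2_le hbig
          have h3 := Hr_mono hbig
          have h4 := Hr_64.2
          have h5 : (0 : ℝ) < 1 / (al : ℝ) := by positivity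
          linarith)
      refine le_trans hR (le_trans ?_ hA)
      have hx0 : 0 ≤ K * (K - 1) / al := by rw [hx]; positivity
      nlinarith
    · rcases Nat.le_or_ge s al with hsa | hsa
      · exact le_trans hR (le_trans (ana1 hbig hK28 hVal)
          (bound _ (pBound hK1 hKK hMK (ha hsa))))
      · have hsar : (al : ℝ) ≤ s := by exact_mod_cast hsa
        have hV2 : (al : ℝ) / 2 ≤ K * (K - 1) := by
          rw [hKK, hV]; exact vb3 halr hsr hsar
        exact le_trans hR (le_trans (ana2 hbig hK1.le hV2 hVal) (bound _ (by linarith)))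

end Pool.Agent.Helper66.Spread
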