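import Pool.Agent.Helper66_Spread.Mom
import Pool.Agent.Helper66_Spread.Key

set_option autoImplicit false

namespace Pool.Agent.Helper66.Spread

open Finset

theorem med_aux {c a s u : ℝ} (hc : 1 ≤ c) (hu0 : 0 ≤ u) (hu : u ≤ s) (hsa : s ≤ a) :
    (c * a - u) * (s - u) * ((c * a + u) * (s + u)) ≤
      (a + u + 1) * (c * s + u + 1) * ((a - u + 1) * (c * s - u + 1)) := by
  have h1 : 0 ≤ (c ^ 2 - 1) * (a ^ 2 - s ^ 2) :=
    mul_nonneg (by nlinarith) (by nlinarith)
  have hs0 : 0 ≤ s := by linarith
  have h2 : u ^ 2 ≤ s ^ 2 := by nlinarith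
  have h3 : 0 ≤ a + c * s + 1 := by nlinarith
  have h4 : s ^ 2 ≤ c * (a * s) := by nlinarith [mul_nonneg hs0 (sub_nonneg.mpr hsa), mul_nonneg (mul_nonneg hs0 (by linarith : 0 ≤ a)) (sub_nonneg.mpr hc)]
  have e : (a + u + 1) * (c * s + u + 1) * ((a - u + 1) * (c * s - u + 1)) -
      (c * a - u) * (s - u) * ((c * a + u) * (s + u)) =
      (a + c * s + 1) * (2 * (c * (a * s)) + (a + c * s + 1)) -
      u ^ 2 * (2 * (a + c * s + 1) - (c ^ 2 - 1) * (a ^ 2 - s ^ 2)) := by ring
  have h5 : 0 ≤ u ^ 2 * ((c ^ 2 - 1) * (a ^ 2 - s ^ 2)) := mul_nonneg (sq_nonneg u) h1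
  have h6 : 0 ≤ (a + c * s + 1) * (c * (a * s) - u ^ 2) := mul_nonneg h3 (by linarith)
  nlinarith [mul_nonneg h3 h3]

theorem med_term {m al s : ℕ} (hm : 2 ≤ m) (hsa : s ≤ al) (u : ℕ) (hu : u < s) :
    ww m al s (al + s) (al + 1 + u) ≤ ww m al s (al + s) (al - u) := by
  have hmr : (2 : ℝ) ≤ m := by exact_mod_cast hm
  have hsar : (s : ℝ) ≤ al := by exact_mod_cast hsa
  induction u with
  | zero =>
    have h := wt_rec (m * al) (m * s) (al + s) al
    push_cast at h
    have hsr : (1 : ℝ) ≤ s := by exact_mod_cast hu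
    unfold ww
    simp only [add_zero, Nat.sub_zero]
    have hX := wt_nonneg (m * al) (m * s) (al + s) (al + 1)
    have hY := wt_nonneg (m * al) (m * s) (al + s) al
    generalize wt (m * al) (m * s) (al + s) (al + 1) = X at *
    generalize wt (m * al) (m * s) (al + s) al = Y at *
    have h' : ((al : ℝ) + 1) * (((m : ℝ) - 1) * s + 1) * X = (((m : ℝ) - 1) * al * s) * Y := by
      have e1 : ((al : ℝ) + 1) * (((m : ℝ) - 1) * s + 1) * X =
        ((al : ℝ) + 1) * ((m : ℝ) * s - (al + s) + al + 1) * X := by ring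
      rw [e1, h]; ring
    have hpos : 0 < ((al : ℝ) + 1) * (((m : ℝ) - 1) * s + 1) := by
      apply mul_pos (by positivity); nlinarith
    have h2 : (((m : ℝ) - 1) * al * s) * Y ≤ ((al : ℝ) + 1) * (((m : ℝ) - 1) * s + 1) * Y := by
      apply mul_le_mul_of_nonneg_right _ hY
      nlinarith [mul_nonneg (by linarith : (0:ℝ) ≤ (m : ℝ) - 1) (by linarith : (0:ℝ) ≤ (s : ℝ))]
    exact le_of_mul_le_mul_left (by linarith) hpos
  | succ u ih =>
    have ih' := ih (by omega)
    have h1 := wt_rec (m * al) (m * s) (al + s) (al + 1 + u)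
    have h2 := wt_rec (m * al) (m * s) (al + s) (al - (u + 1))
    have e1 : al - (u + 1) + 1 = al - u := by omega
    have e2 : al + 1 + u + 1 = al + 1 + (u + 1) := by omega
    rw [e1] at h2
    rw [e2] at h1
    have hc : ((al - (u + 1) : ℕ) : ℝ) = (al : ℝ) - (u + 1) := by
      rw [Nat.cast_sub (by omega)]; push_cast; ring
    rw [hc] at h2
    push_cast at h1 h2
    have hur : (u : ℝ) + 1 + 1 ≤ s := by exact_mod_cast hu
    unfold ww at ih' ⊢
    have hX := wt_nonneg (m * al) (m * s) (al + s) (al + 1 + (u + 1))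
    have hY := wt_nonneg (m * al) (m * s) (al + s) (al + 1 + u)
    have hZ := wt_nonneg (m * al) (m * s) (al + s) (al - u)
    have hT := wt_nonneg (m * al) (m * s) (al + s) (al - (u + 1))
    generalize wt (m * al) (m * s) (al + s) (al + 1 + (u + 1)) = X at *
    generalize wt (m * al) (m * s) (al + s) (al + 1 + u) = Y at *
    generalize wt (m * al) (m * s) (al + s) (al - u) = Z at *
    generalize wt (m * al) (m * s) (al + s) (al - (u + 1)) = T at *
    have hu0 : (0 : ℝ) ≤ u := by positivity
    generalize hv : (u : ℝ) + 1 = v at *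
    have hv0 : (1 : ℝ) ≤ v := by linarith
    obtain ⟨c, hc'⟩ : ∃ c : ℝ, (m : ℝ) = c + 1 := ⟨m - 1, by ring⟩
    have hc1 : 1 ≤ c := by linarith
    rw [hc'] at h1 h2
    have hmed := med_aux (c := c) (a := al) (s := s) (u := v) hc1 (by linarith) (by linarith) hsar
    generalize (al : ℝ) = a at *
    generalize (s : ℝ) = t at *
    have g1 : (a + v + 1) * (c * t + v + 1) * X = (c * a - v) * (t - v) * Y := by
      have : (a + v + 1) * (c * t + v + 1) * X =
        (a + 1 + u + 1) * ((c + 1) * t - (a + t) + (a + 1 + u) + 1) * X := by rw [← hv]; ring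
      rw [this, h1, ← hv]; ring
    have g2 : (a - v + 1) * (c * t - v + 1) * Z = (c * a + v) * (t + v) * T := by
      have : (a - v + 1) * (c * t - v + 1) * Z =
        (a - v + 1) * ((c + 1) * t - (a + t) + (a - v) + 1) * Z := by ring
      rw [this, h2]; ring
    have hA1 : 0 < (a + v + 1) * (c * t + v + 1) := by
      apply mul_pos (by linarith); nlinarith
    have hA2 : 0 < (a - v + 1) * (c * t - v + 1) := by
      apply mul_pos (by linarith)
      have : t ≤ c * t := by nlinarith
      linarith
    have hB1 : 0 ≤ (c * a - v) * (t - v) := by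
      apply mul_nonneg _ (by linarith)
      have : a ≤ c * a := by nlinarith
      linarith
    generalize (a + v + 1) * (c * t + v + 1) = A1 at *
    generalize (a - v + 1) * (c * t - v + 1) = A2 at *
    generalize (c * a - v) * (t - v) = B1 at *
    generalize (c * a + v) * (t + v) = B2 at *
    -- A1 X = B1 Y, A2 Z = B2 T, Y ≤ Z, B1 B2 ≤ A1 A2
    have f1 : A1 * A2 * X ≤ A1 * A2 * T := by
      have k1 : A1 * A2 * X = A2 * (B1 * Y) := by rw [← g1]; ring
      have k2 : A2 * (B1 * Y) ≤ A2 * (B1 * Z) :=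
        mul_le_mul_of_nonneg_left (mul_le_mul_of_nonneg_left ih' hB1) hA2.le
      have k3 : A2 * (B1 * Z) = B1 * B2 * T := by
        calc A2 * (B1 * Z) = B1 * (A2 * Z) := by ring
          _ = B1 * (B2 * T) := by rw [g2]
          _ = _ := by ring
      have k4 : B1 * B2 * T ≤ A1 * A2 * T := mul_le_mul_of_nonneg_right hmed hT
      linarith
    exact le_of_mul_le_mul_left f1 (mul_pos hA1 hA2)

/-- median property -/
theorem med {m al s : ℕ} (hm : 2 ≤ m) (hsa : s ≤ al) :
    Wt m al s (al + s) ≤ 2 * Wl m al s (al + s) + 2 * ww m al s (al + s) al := by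
  have hb : al + s ≤ m * (al + s) := Nat.le_mul_of_pos_left _ (by omega)
  obtain ⟨k, hk⟩ : ∃ k, m * (al + s) = s + k := ⟨m * (al + s) - s, by omega⟩
  have h1 : Wr m al s (al + s) = ww m al s (al + s) al +
      ∑ u ∈ range s, ww m al s (al + s) (al + 1 + u) := by
    unfold Wr
    rw [Finset.sum_range_succ', hk, Finset.sum_range_add]
    have h0 : ∑ x ∈ range k, ww m al s (al + s) (al + (s + x + 1)) = 0 :=
      Finset.sum_eq_zero (fun x _ => wt_zero (by omega))
    rw [h0, add_zero, add_zero, add_comm]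
    congr 1
    apply Finset.sum_congr rfl
    intro x _
    congr 1; omega
  have h2 : ∑ u ∈ range s, ww m al s (al + s) (al + 1 + u) ≤
      ∑ u ∈ range s, ww m al s (al + s) (al - u) :=
    Finset.sum_le_sum (fun u hu => med_term hm hsa u (Finset.mem_range.mp hu))
  have h3 : ∑ u ∈ range s, ww m al s (al + s) (al - u) ≤
      ∑ u ∈ range (al + 1), ww m al s (al + s) (al - u) :=
    Finset.sum_le_sum_of_subset_of_nonneg (Finset.range_mono (by omega))
      (fun i _ _ => ww_nonneg _ _ _ _ _)
  have h4 : ∑ u ∈ range (al + 1), ww m al s (al + s) (al - u) =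
      Wl m al s (al + s) + ww m al s (al + s) al := by
    have := Finset.sum_range_reflect (fun i => ww m al s (al + s) i) (al + 1)
    simp only [Nat.add_sub_cancel] at this
    rw [this, Finset.sum_range_succ]; rfl
  unfold Wt
  linarith

theorem Wl_le_Ml (m al s j : ℕ) : Wl m al s j ≤ Ml m al s j := by
  unfold Wl Ml
  apply Finset.sum_le_sum
  intro i hi
  have h : i + 1 ≤ al := Finset.mem_range.mp hi
  have : (i : ℝ) + 1 ≤ al := by exact_mod_cast h
  have := ww_nonneg m al s j i
  nlinarith

theorem Hr_ratio {al s : ℕ} (hal : 1 ≤ al) :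
    (al : ℝ) / (al + s) * Hr (al + s) ≤ Hr al := by
  have halr : (1 : ℝ) ≤ al := by exact_mod_cast hal
  have hsr : (0 : ℝ) ≤ s := by positivity
  have h := Hr_add_le (al := al) (s := s) hal
  have e1 : (al : ℝ) / (al + s) * Hr (al + s) ≤ (al : ℝ) / (al + s) * (Hr al + s / al) :=
    mul_le_mul_of_nonneg_left h (by positivity)
  refine le_trans e1 ?_
  have hH := one_le_Hr hal
  have e2 : (al : ℝ) / (al + s) * (Hr al + s / al) = (al * Hr al + s) / (al + s) := by
    field_simp
  rw [e2, div_le_iff₀ (by positivity)]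
  nlinarith

theorem ww_al_pos {m al s : ℕ} (hm : 1 ≤ m) : 0 < ww m al s (al + s) al := by
  unfold ww wt
  rw [if_pos (by omega), Nat.add_sub_cancel_left]
  have h1 : 0 < (m * al).choose al := Nat.choose_pos (Nat.le_mul_of_pos_left _ hm)
  have h2 : 0 < (m * s).choose s := Nat.choose_pos (Nat.le_mul_of_pos_left _ hm)
  have h1' : (0 : ℝ) < ((m * al).choose al : ℝ) := by exact_mod_cast h1
  have h2' : (0 : ℝ) < ((m * s).choose s : ℝ) := by exact_mod_cast h2
  positivity

theorem Wr_pos {m al s : ℕ} (hm : 1 ≤ m) : 0 < Wr m al s (al + s) := by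
  unfold Wr
  rw [Finset.sum_range_succ']
  have : 0 ≤ ∑ k ∈ range (m * (al + s)), ww m al s (al + s) (al + (k + 1)) :=
    Finset.sum_nonneg (fun i _ => ww_nonneg _ _ _ _ _)
  have := ww_al_pos (m := m) (al := al) (s := s) hm
  rw [add_zero]
  linarith

theorem ww_le {m al s : ℕ} (hm : 2 ≤ m) (hal : 1 ≤ al) (hs : 1 ≤ s) :
    ww m al s (al + s) al ≤ 2 * Ml m al s (al + s) / ((al : ℝ) * s / (al + s)) := by
  have hmr : (2 : ℝ) ≤ m := by exact_mod_cast hm
  have halr : (1 : ℝ) ≤ al := by exact_mod_cast hal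
  have hsr : (1 : ℝ) ≤ s := by exact_mod_cast hs
  have hMe := Ml_eq (m := m) (al := al) (s := s)
  have hw0 := ww_nonneg m al s (al + s) al
  generalize ww m al s (al + s) al = w at *
  generalize Ml m al s (al + s) = M at *
  generalize (m : ℝ) = mm at *
  generalize (al : ℝ) = a at *
  generalize (s : ℝ) = t at *
  have hat : 0 < a * t := mul_pos (by linarith) (by linarith)
  have h5 : a * t * w ≤ 2 * ((a + t) * M) := by
    have k0 : 0 ≤ (mm - 2) * (a * t * w) := mul_nonneg (by linarith) (mul_nonneg hat.le hw0)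
    have k1 : mm * (a * t * w) ≤ mm * (2 * ((a + t) * M)) := by
      have : mm * (2 * ((a + t) * M)) = 2 * (mm * (a + t) * M) := by ring
      rw [this, hMe]; linarith
    exact le_of_mul_le_mul_left k1 (by linarith)
  rw [le_div_iff₀ (by positivity), mul_div_assoc', div_le_iff₀ (by linarith)]
  linarith

/-- the key inequality at `j = β` -/
theorem key_beta {m al s : ℕ} (hm : 1 ≤ m) (hal : 1 ≤ al) (hs : 1 ≤ s) :
    (al : ℝ) / (al + s) * Hr (al + s) ≤
      ∑ a ∈ range al, 1 / (((a : ℝ) + 1) * (1 - Wl m al s (al + s) / Wt m al s (al + s)) +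
        Ml m al s (al + s) / Wt m al s (al + s)) := by
  have hb : al + s ≤ m * (al + s) := Nat.le_mul_of_pos_left _ hm
  have hW := Wt_pos hb
  have hWl := Wl_nonneg m al s (al + s)
  have hMl := Ml_nonneg m al s (al + s)
  have hWM := Wl_le_Ml m al s (al + s)
  have hmr : (1 : ℝ) ≤ m := by exact_mod_cast hm
  have halr : (1 : ℝ) ≤ al := by exact_mod_cast hal
  have hsr : (1 : ℝ) ≤ s := by exact_mod_cast hs
  rcases Nat.eq_or_lt_of_le hm with h1 | hm2
  · -- m = 1
    have h := Ml_eq (m := m) (al := al) (s := s)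
    rw [← h1] at h
    have hM0 : Ml 1 al s (al + s) = 0 := by
      push_cast at h
      have : (1 : ℝ) * ((al : ℝ) + s) * Ml 1 al s (al + s) = 0 := by rw [h]; ring
      rcases mul_eq_zero.mp this with h' | h'
      · nlinarith
      · exact h'
    rw [← h1] at hWl hWM ⊢
    have hW0 : Wl 1 al s (al + s) = 0 := by linarith
    rw [hM0, hW0]
    simp only [zero_div, sub_zero, mul_one, add_zero]
    exact Hr_ratio hal
  · rcases Nat.eq_or_lt_of_le hal with h1 | hal2
    · -- al = 1
      have hMW : Ml m al s (al + s) = Wl m al s (al + s) := by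
        unfold Ml Wl
        rw [← h1]; simp
      rw [hMW]
      have h := Hr_ratio (al := al) (s := s) hal
      refine le_trans h (le_of_eq ?_)
      unfold Hr
      rw [← h1]; simp
    · -- main case
      have hm2r : (2 : ℝ) ≤ m := by exact_mod_cast hm2
      have hV : (0 : ℝ) < al * s / (al + s) := by positivity
      have hN : (1 : ℝ) ≤ (m : ℝ) * (al + s) - 1 := by nlinarith
      have hQ := Ql_eq (m := m) (al := al) (s := s)
      have hQt := Q_eq (m := m) (al := al) (s := s) hm hal
      have hc1 := Ml_sq_le (m := m) (al := al) (s := s)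
      have hc2 := M_sq_le (m := m) (al := al) (s := s) hm hal
      have hVN : (al : ℝ) * ((m : ℝ) - 1) * s ≤ (al * s / (al + s)) * ((m : ℝ) * (al + s) - 1) := by
        rw [div_mul_eq_mul_div, le_div_iff₀ (by positivity)]
        nlinarith [mul_pos (by linarith : (0:ℝ) < (al:ℝ)) (by linarith : (0:ℝ) < (s:ℝ))]
      have hcN : (((m : ℝ) - 1) * al + s) ≤ ((m : ℝ) * (al + s) - 1) := by nlinarith
      set V : ℝ := al * s / (al + s) with hVd
      set W := Wt m al s (al + s) with hWd
      set a := Wl m al s (al + s) with had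
      set M := Ml m al s (al + s) with hMd
      have q1 : Ql m al s ≤ V * a + M := by
        have : ((m : ℝ) * (al + s) - 1) * Ql m al s ≤ ((m : ℝ) * (al + s) - 1) * (V * a + M) := by
          rw [hQ]
          have := mul_le_mul_of_nonneg_right hVN hWl
          have := mul_le_mul_of_nonneg_right hcN hMl
          nlinarith
        exact le_of_mul_le_mul_left this (by linarith)
      have q2 : Ql m al s + Qr m al s ≤ V * W := by
        have : ((m : ℝ) * (al + s) - 1) * (Ql m al s + Qr m al s) ≤
            ((m : ℝ) * (al + s) - 1) * (V * W) := by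
          rw [hQt]
          have := mul_le_mul_of_nonneg_right hVN hW.le
          nlinarith
        exact le_of_mul_le_mul_left this (by linarith)
      apply keyT (V := V) hal2 hs rfl (by positivity)
      · rw [div_lt_one hW]
        have := Wr_pos (m := m) (al := al) (s := s) hm
        rw [hWd]; unfold Wt; linarith
      · positivity
      · have e : a / W * (a / W * V + M / W) = a * (V * a + M) / W ^ 2 := by
          field_simp
        rw [e, div_pow]
        apply div_le_div_of_nonneg_right _ (by positivity)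
        exact le_trans hc1 (mul_le_mul_of_nonneg_left q1 hWl)
      · have : 4 * (M / W) ^ 2 = 4 * M ^ 2 / W ^ 2 := by rw [div_pow]; ring
        rw [this, div_le_iff₀ (by positivity)]
        have := mul_le_mul_of_nonneg_left q2 hW.le
        nlinarith
      · intro hsa
        have hmed := med (m := m) (al := al) (s := s) hm2 hsa
        have hw : ww m al s (al + s) al ≤ 2 * M / V := ww_le hm2 hal hs
        have e : a / W + 2 * (M / W) / V = (a + 2 * M / V) / W := by
          field_simp
        rw [e, le_div_iff₀ hW]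
        linarith

end Pool.Agent.Helper66.Spread
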