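import Pool.Agent.Helper66_Spread.Star

set_option autoImplicit false

namespace Pool.Agent.Helper66.Spread

open Finset

theorem sum_ext' (A n j R : ℕ) (f : ℕ → ℝ) (h : j < R) :
    ∑ i ∈ range R, wt A n j i * f i = ∑ i ∈ range (j + 1), wt A n j i * f i := by
  obtain ⟨k, rfl⟩ : ∃ k, R = j + 1 + k := ⟨R - (j + 1), by omega⟩
  rw [Finset.sum_range_add]
  have : ∑ x ∈ range k, wt A n j (j + 1 + x) * f (j + 1 + x) = 0 :=
    Finset.sum_eq_zero (fun x _ => by rw [wt_zero (by omega), zero_mul])
  rw [this, add_zero]

/-- the unnormalised objective, as a sum over `j ∈ [0, N]` -/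
noncomputable def G (N m r a : ℕ) : ℝ :=
  ∑ j ∈ range (N + 1), wt (m * a) (N - m * a) r j * phi a j

/-- binomial coefficient with an out-of-range convention -/
noncomputable def cb (y r j : ℕ) : ℝ := if j ≤ r then (y.choose (r - j) : ℝ) else 0

theorem cb_nonneg (y r j : ℕ) : 0 ≤ cb y r j := by unfold cb; split_ifs <;> positivity

theorem vand (x y r i N : ℕ) (hr : r ≤ N) :
    ∑ j ∈ range (N + 1), cb x j i * cb y r j = cb (x + y) r i := by
  rcases Nat.lt_or_ge r i with h | h
  · have : cb (x + y) r i = 0 := by unfold cb; rw [if_neg (by omega)]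
    rw [this]
    apply Finset.sum_eq_zero
    intro j _
    unfold cb
    rcases Nat.lt_or_ge r j with h1 | h1
    · rw [if_neg (by omega : ¬ j ≤ r), mul_zero]
    · rw [if_neg (by omega : ¬ i ≤ j), zero_mul]
  · obtain ⟨k, rfl⟩ : ∃ k, r = i + k := ⟨r - i, by omega⟩
    obtain ⟨l, rfl⟩ : ∃ l, N = i + k + l := ⟨N - (i + k), by omega⟩
    rw [show i + k + l + 1 = i + ((k + 1) + l) by ring, Finset.sum_range_add,
      Finset.sum_range_add _ (k + 1) l]
    have z1 : ∑ x_1 ∈ range i, cb x x_1 i * cb y (i + k) x_1 = 0 := by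
      apply Finset.sum_eq_zero
      intro j hj
      have := Finset.mem_range.mp hj
      unfold cb
      rw [if_neg (by omega : ¬ i ≤ j), zero_mul]
    have z2 : ∑ x_1 ∈ range l, cb x (i + (k + 1 + x_1)) i * cb y (i + k) (i + (k + 1 + x_1)) = 0 := by
      apply Finset.sum_eq_zero
      intro j _
      unfold cb
      rw [if_neg (by omega : ¬ i + (k + 1 + j) ≤ i + k), mul_zero]
    rw [z1, z2, zero_add, add_zero]
    unfold cb
    rw [if_pos (by omega : i ≤ i + k), Nat.add_sub_cancel_left, Nat.add_choose_eq,
      Nat.sum_antidiagonal_eq_sum_range_succ_mk]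
    push_cast
    apply Finset.sum_congr rfl
    intro j hj
    have := Finset.mem_range.mp hj
    rw [if_pos (by omega), if_pos (by omega), Nat.add_sub_cancel_left,
      show i + k - (i + j) = k - j by omega]

theorem wt_eq_cb (A n j i : ℕ) : wt A n j i = (A.choose i : ℝ) * cb n j i := rfl

/-- difference after conditioning on the larger set -/
noncomputable def dl (N m a s j : ℕ) : ℝ :=
  ((m * (a + s)).choose j : ℝ) * phi (a + s) j -
    ∑ i ∈ range (N + 1), wt (m * a) (m * s) j i * phi a i

theorem G_diff {N m r a s : ℕ} (hN : m * (a + s) ≤ N) (hr : r ≤ N) :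
    G N m r (a + s) - G N m r a = ∑ j ∈ range (N + 1), cb (N - m * (a + s)) r j * dl N m a s j := by
  unfold G dl
  have h1 : ∑ j ∈ range (N + 1), wt (m * (a + s)) (N - m * (a + s)) r j * phi (a + s) j =
      ∑ j ∈ range (N + 1), cb (N - m * (a + s)) r j *
        (((m * (a + s)).choose j : ℝ) * phi (a + s) j) := by
    apply Finset.sum_congr rfl
    intro j _
    rw [wt_eq_cb]; ring
  have h2 : ∑ j ∈ range (N + 1), wt (m * a) (N - m * a) r j * phi a j =
      ∑ j ∈ range (N + 1), cb (N - m * (a + s)) r j *
        ∑ i ∈ range (N + 1), wt (m * a) (m * s) j i * phi a i := by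
    have e : ∀ i ∈ range (N + 1), wt (m * a) (N - m * a) r i * phi a i =
        ∑ j ∈ range (N + 1), cb (N - m * (a + s)) r j * (wt (m * a) (m * s) j i * phi a i) := by
      intro i _
      have hv := vand (m * s) (N - m * (a + s)) r i N hr
      have hx : m * s + (N - m * (a + s)) = N - m * a := by
        have : m * (a + s) = m * a + m * s := by ring
        omega
      rw [hx] at hv
      rw [wt_eq_cb, ← hv, Finset.mul_sum, Finset.sum_mul]
      apply Finset.sum_congr rfl
      intro j _
      rw [wt_eq_cb]; ring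
    rw [Finset.sum_congr rfl e, Finset.sum_comm]
    apply Finset.sum_congr rfl
    intro j _
    rw [Finset.mul_sum]
  rw [h1, h2, ← Finset.sum_sub_distrib]
  apply Finset.sum_congr rfl
  intro j _
  ring

theorem dl_neg {N m a s j : ℕ} (ha : 1 ≤ a) (hj : j < a + s) : dl N m a s j ≤ 0 := by
  unfold dl
  have h1 : phi (a + s) j = 0 := by unfold phi; rw [if_neg (by omega)]
  rw [h1, mul_zero, zero_sub, neg_nonpos]
  exact Finset.sum_nonneg (fun i _ => mul_nonneg (wt_nonneg _ _ _ _) (phi_nonneg ha i))

theorem dl_pos {N m a s j : ℕ} (hm : 1 ≤ m) (ha : 1 ≤ a) (hs : 1 ≤ s) (hjN : j ≤ N)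
    (hj : a + s ≤ j) : 0 ≤ dl N m a s j := by
  unfold dl
  rw [sum_ext' _ _ _ _ _ (by omega : j < N + 1)]
  rcases Nat.lt_or_ge (m * (a + s)) j with h | h
  · have h0 : ∑ i ∈ range (j + 1), wt (m * a) (m * s) j i = 0 := by
      rw [sum_wt _ _ _ _ (by omega)]
      have : (m * a + m * s).choose j = 0 := by
        rw [Nat.choose_eq_zero_iff]
        have : m * (a + s) = m * a + m * s := by ring
        omega
      rw [this]; simp
    have hz := (Finset.sum_eq_zero_iff_of_nonneg (fun i _ => wt_nonneg (m * a) (m * s) j i)).mp h0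
    have : ∑ i ∈ range (j + 1), wt (m * a) (m * s) j i * phi a i = 0 :=
      Finset.sum_eq_zero (fun i hi => by rw [hz i hi, zero_mul])
    rw [this, sub_zero]
    exact mul_nonneg (by positivity) (phi_nonneg (by omega) j)
  · have hst := star (m := m) (al := a) (s := s) (j := j) hm ha hs hj h
    rw [sum_ext' _ _ _ _ _ (by omega)] at hst
    linarith

/-- single crossing in `r` -/
theorem cross {N m r a s : ℕ} (hm : 1 ≤ m) (ha : 1 ≤ a) (hs : 1 ≤ s) (hN : m * (a + s) ≤ N)
    (hr : r + 1 ≤ N) (hbr : a + s ≤ r) (h : G N m r a ≤ G N m r (a + s)) :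
    G N m (r + 1) a ≤ G N m (r + 1) (a + s) := by
  have h1 := G_diff (N := N) (m := m) (r := r) (a := a) (s := s) hN (by omega)
  have h2 := G_diff (N := N) (m := m) (r := r + 1) (a := a) (s := s) hN hr
  set y := N - m * (a + s) with hy
  have h3 : 0 ≤ ∑ j ∈ range (N + 1), cb y r j * dl N m a s j := by linarith
  suffices 0 ≤ ∑ j ∈ range (N + 1), cb y (r + 1) j * dl N m a s j by linarith
  rcases Nat.eq_zero_or_pos (y.choose (r - (a + s))) with hz | hp
  · apply Finset.sum_nonneg
    intro j hj
    have hjN := Finset.mem_range.mp hj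
    rcases Nat.lt_or_ge j (a + s) with hlt | hge
    · have : cb y (r + 1) j = 0 := by
        unfold cb
        rw [if_pos (by omega)]
        rw [Nat.choose_eq_zero_iff] at hz
        rw [Nat.choose_eq_zero_of_lt (by omega)]; simp
      rw [this, zero_mul]
    · exact mul_nonneg (cb_nonneg _ _ _) (dl_pos hm ha hs (by omega) hge)
  · have hpr : (0 : ℝ) < (y.choose (r - (a + s)) : ℝ) := by exact_mod_cast hp
    set lam : ℝ := (y.choose (r - (a + s) + 1) : ℝ) / (y.choose (r - (a + s)) : ℝ) with hlam
    have hl0 : 0 ≤ lam := by positivity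
    have key : ∀ j ∈ range (N + 1), lam * (cb y r j * dl N m a s j) ≤
        cb y (r + 1) j * dl N m a s j := by
      intro j hj
      have hjN := Finset.mem_range.mp hj
      rcases Nat.lt_or_ge j (a + s) with hlt | hge
      · have hd := dl_neg (N := N) (m := m) ha hlt
        have hc : cb y (r + 1) j ≤ lam * cb y r j := by
          unfold cb
          rw [if_pos (by omega), if_pos (by omega), hlam, div_mul_eq_mul_div, le_div_iff₀ hpr]
          have := choose_lc1 y (r - (a + s)) (r - j) (by omega)
          rw [show r + 1 - j = r - j + 1 by omega]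
          have h' : (y.choose (r - (a + s)) : ℝ) * y.choose (r - j + 1) ≤
              (y.choose (r - j) : ℝ) * y.choose (r - (a + s) + 1) := by exact_mod_cast this
          linarith
        nlinarith
      · have hd := dl_pos (N := N) hm ha hs (by omega) hge
        have hc : lam * cb y r j ≤ cb y (r + 1) j := by
          rcases Nat.lt_or_ge r j with h4 | h4
          · have : cb y r j = 0 := by unfold cb; rw [if_neg (by omega)]
            rw [this, mul_zero]; exact cb_nonneg _ _ _
          · unfold cb
            rw [if_pos (by omega), if_pos (by omega), hlam, div_mul_eq_mul_div, div_le_iff₀ hpr]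
            have := choose_lc1 y (r - j) (r - (a + s)) (by omega)
            rw [show r + 1 - j = r - j + 1 by omega]
            have h' : (y.choose (r - j) : ℝ) * y.choose (r - (a + s) + 1) ≤
                (y.choose (r - (a + s)) : ℝ) * y.choose (r - j + 1) := by exact_mod_cast this
            linarith
        nlinarith
    have := Finset.sum_le_sum key
    rw [← Finset.mul_sum] at this
    exact le_trans (mul_nonneg hl0 h3) this

theorem cross_all {N m r r' a b : ℕ} (hm : 1 ≤ m) (ha : 1 ≤ a) (hab : a < b) (hN : m * b ≤ N)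
    (hrr : r ≤ r') (hr : r' ≤ N) (hbr : b ≤ r) (h : G N m r a ≤ G N m r b) :
    G N m r' a ≤ G N m r' b := by
  obtain ⟨s, rfl⟩ : ∃ s, b = a + s := ⟨b - a, by omega⟩
  induction r', hrr using Nat.le_induction with
  | base => exact h
  | succ q hq ih => exact cross hm ha (by omega) hN hr (by omega) (ih (by omega))

end Pool.Agent.Helper66.Spread
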