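import Mathlib

set_option autoImplicit false

namespace Pool.Agent.Helper66.Spread

/-- Harmonic numbers as real numbers. -/
noncomputable def Hr (n : ℕ) : ℝ := ∑ i ∈ Finset.range n, 1 / ((i : ℝ) + 1)

def sumTo (f : ℕ → ℕ) : ℕ → ℕ
  | 0 => 0
  | k + 1 => sumTo f k + f k

theorem sumTo_eq (f : ℕ → ℕ) (n : ℕ) : sumTo f n = ∑ i ∈ Finset.range n, f i := by
  induction n with
  | zero => rfl
  | succ n ih => rw [Finset.sum_range_succ, ← ih]; rfl

def allTo (f : ℕ → Bool) : ℕ → Bool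
  | 0 => true
  | k + 1 => allTo f k && f k

theorem allTo_spec (f : ℕ → Bool) (n : ℕ) (h : allTo f n = true) (i : ℕ) (hi : i < n) :
    f i = true := by
  induction n with
  | zero => omega
  | succ n ih =>
    simp only [allTo, Bool.and_eq_true] at h
    rcases Nat.lt_succ_iff_lt_or_eq.mp hi with h' | h'
    · exact ih h.1 h'
    · exact h' ▸ h.2

def hc (al : ℕ) : ℕ := sumTo (fun a => 1000000 / (a + 1) + 1) al

def s1 (al n : ℕ) : ℕ := sumTo (fun a => (1000000 * (80 * (n + 1) * (n + 20))) /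
  (40 * (n + 1) * (n + 60) * a + (n + 20) * (2 * (n + 1) * (n + 1) + 20 * (n + 1) + 400))) al

def s2 (al n : ℕ) : ℕ := sumTo (fun a => (1000000 * (80 * (n + 1))) /
  (80 * (n + 1) * a + (2 * (n + 1) * (n + 1) + 20 * (n + 1) + 400))) al

def ok (S al n : ℕ) : Bool :=
  Nat.ble ((400 * al - n * (n - 20)) * hc al + n * (n - 20) * 1000000) (S * al * 400)

def cell1 (al n : ℕ) : Bool :=
  !(Nat.ble (2 * (n * (n - 20))) (400 * al) &&
    Nat.ble (400 * al) ((n + 1) * (n - 19) * (al + 1))) || ok (s1 al n) al n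

def cell2 (al n : ℕ) : Bool :=
  !(Nat.ble (n * (n - 20)) (400 * al) &&
    Nat.ble (400 * al) (2 * ((n + 1) * (n - 19)))) || ok (s2 al n) al n

def allchk : Bool :=
  allTo (fun i => allTo (fun k => cell1 (i + 2) (k + 20) && cell2 (i + 2) (k + 20)) 150) 62

set_option maxRecDepth 100000 in
theorem allchk_true : allchk = true := by decide +kernel

theorem hc_ge (al : ℕ) : 1000000 * Hr al ≤ (hc al : ℝ) := by
  unfold hc Hr
  rw [sumTo_eq, Finset.mul_sum]
  push_cast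
  apply Finset.sum_le_sum
  intro i _
  have h := Nat.lt_div_mul_add (a := 1000000) (b := i + 1) (by omega)
  have h2 : (1000000 : ℝ) < ((1000000 / (i + 1) : ℕ) : ℝ) * ((i : ℝ) + 1) + ((i : ℝ) + 1) := by
    exact_mod_cast h
  have hp : (0 : ℝ) < (i : ℝ) + 1 := by positivity
  rw [mul_one_div, div_le_iff₀ hp]
  generalize ((1000000 / (i + 1) : ℕ) : ℝ) = x at h2 ⊢
  have : (x + 1) * ((i : ℝ) + 1) = x * ((i : ℝ) + 1) + ((i : ℝ) + 1) := by ring
  linarith

theorem one_le_Hr {al : ℕ} (h : 1 ≤ al) : 1 ≤ Hr al := by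
  unfold Hr
  obtain ⟨k, rfl⟩ : ∃ k, al = k + 1 := ⟨al - 1, by omega⟩
  rw [Finset.sum_range_succ']
  have : (0 : ℝ) ≤ ∑ i ∈ Finset.range k, 1 / (((i + 1 : ℕ) : ℝ) + 1) :=
    Finset.sum_nonneg (fun i _ => by positivity)
  simp only [Nat.cast_zero, zero_add, div_one]
  linarith

/-- soundness of one cell, general form -/
theorem cell_sound (S al n : ℕ) (K : ℝ) (f : ℕ → ℝ) (hn : 20 ≤ n) (hal : 1 ≤ al)
    (hV : n * (n - 20) ≤ 400 * al) (h : ok S al n = true)
    (hK : (n : ℝ) / 20 ≤ K) (hS : (S : ℝ) ≤ 1000000 * ∑ a ∈ Finset.range al, f a) :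
    (1 - K * (K - 1) / al) * Hr al + K * (K - 1) / al ≤ ∑ a ∈ Finset.range al, f a := by
  have halp : (0 : ℝ) < al := by exact_mod_cast hal
  have h1 := Nat.le_of_ble_eq_true h
  have h2 : (((400 * al - n * (n - 20)) * hc al + n * (n - 20) * 1000000 : ℕ) : ℝ) ≤
      ((S * al * 400 : ℕ) : ℝ) := by exact_mod_cast h1
  have hc' : ((400 * al - n * (n - 20) : ℕ) : ℝ) = 400 * (al : ℝ) - n * ((n : ℝ) - 20) := by
    rw [Nat.cast_sub hV]; push_cast [Nat.cast_sub hn]; ring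
  push_cast [hc', Nat.cast_sub hn] at h2
  have hnn : (20 : ℝ) ≤ n := by exact_mod_cast hn
  have hVr : (n : ℝ) * ((n : ℝ) - 20) ≤ 400 * al := by
    have : ((n * (n - 20) : ℕ) : ℝ) ≤ ((400 * al : ℕ) : ℝ) := by exact_mod_cast hV
    push_cast [Nat.cast_sub hn] at this
    exact this
  have hH := hc_ge al
  have hH1 := one_le_Hr hal
  have hV2 : (n : ℝ) * ((n : ℝ) - 20) / 400 ≤ K * (K - 1) := by
    have : (n : ℝ) / 20 * ((n : ℝ) / 20 - 1) ≤ K * (K - 1) := by
      apply mul_le_mul hK (by linarith) (by linarith) (by linarith)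
    calc (n : ℝ) * ((n : ℝ) - 20) / 400 = (n : ℝ) / 20 * ((n : ℝ) / 20 - 1) := by ring
      _ ≤ _ := this
  -- main
  have e1 : (400 * (al : ℝ) - n * ((n : ℝ) - 20)) * (1000000 * Hr al) ≤
      (400 * (al : ℝ) - n * ((n : ℝ) - 20)) * (hc al : ℝ) :=
    mul_le_mul_of_nonneg_left hH (by linarith)
  have e2 : (S : ℝ) * al * 400 ≤ 1000000 * (∑ a ∈ Finset.range al, f a) * al * 400 := by
    have := mul_le_mul_of_nonneg_right hS halp.le
    linarith
  have e3 : (400 * (al : ℝ) - n * ((n : ℝ) - 20)) * Hr al + n * ((n : ℝ) - 20) ≤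
      (∑ a ∈ Finset.range al, f a) * al * 400 := by linarith
  have e4 : (1 - K * (K - 1) / al) * Hr al + K * (K - 1) / al =
      (al * Hr al - K * (K - 1) * (Hr al - 1)) / al := by
    field_simp; ring
  rw [e4, div_le_iff₀ halp]
  have e5 : (n : ℝ) * ((n : ℝ) - 20) / 400 * (Hr al - 1) ≤ K * (K - 1) * (Hr al - 1) :=
    mul_le_mul_of_nonneg_right hV2 (by linarith)
  nlinarith

theorem B_mono {K L : ℝ} (hK : 1 ≤ K) (hL : K ≤ L) :
    (2 * K ^ 2 + K + 1) / (4 * K) ≤ (2 * L ^ 2 + L + 1) / (4 * L) := by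
  rw [div_le_div_iff₀ (by linarith) (by linarith)]
  nlinarith [mul_nonneg (sub_nonneg.mpr hL) (sub_nonneg.mpr (by nlinarith : (1:ℝ) ≤ K * L))]

theorem grid1 (al : ℕ) (K : ℝ) (h2 : 2 ≤ al) (h59 : al ≤ 63) (hK : 1 ≤ K)
    (hV1 : (al : ℝ) / (al + 1) ≤ K * (K - 1)) (hV2 : K * (K - 1) ≤ (al : ℝ) / 2) :
    (1 - K * (K - 1) / al) * Hr al + K * (K - 1) / al ≤
      ∑ a ∈ Finset.range al, 1 / ((K + 3) / (2 * (K + 1)) * a + (2 * K ^ 2 + K + 1) / (4 * K)) := by
  set n := ⌊20 * K⌋₊ with hn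
  have hn1 : (n : ℝ) ≤ 20 * K := Nat.floor_le (by linarith)
  have hn2 : 20 * K < n + 1 := Nat.lt_floor_add_one _
  have hn20 : 20 ≤ n := Nat.le_floor (by push_cast; linarith)
  have halr : (2 : ℝ) ≤ al := by exact_mod_cast h2
  have halr' : (al : ℝ) ≤ 63 := by exact_mod_cast h59
  have hnr : (20 : ℝ) ≤ n := by exact_mod_cast hn20
  have hc1 : 2 * (n * (n - 20)) ≤ 400 * al := by
    have : (2 : ℝ) * (n * ((n : ℝ) - 20)) ≤ 400 * al := by nlinarith
    have h' : ((2 * (n * (n - 20)) : ℕ) : ℝ) ≤ ((400 * al : ℕ) : ℝ) := by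
      push_cast [Nat.cast_sub hn20]; exact this
    exact_mod_cast h'
  have hc2 : 400 * al ≤ (n + 1) * (n - 19) * (al + 1) := by
    have h19 : 19 ≤ n := by omega
    have a1 : (al : ℝ) ≤ K * (K - 1) * (al + 1) := by
      rw [div_le_iff₀ (by linarith)] at hV1; exact hV1
    have a2 : 400 * (K * (K - 1)) ≤ ((n : ℝ) + 1) * (n - 19) := by nlinarith
    have : (400 : ℝ) * al ≤ ((n : ℝ) + 1) * (n - 19) * (al + 1) := by nlinarith
    have h' : ((400 * al : ℕ) : ℝ) ≤ (((n + 1) * (n - 19) * (al + 1) : ℕ) : ℝ) := by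
      push_cast [Nat.cast_sub h19]; exact this
    exact_mod_cast h'
  have hnlt : n < 170 := by
    by_contra hcon
    rw [not_lt] at hcon
    have : (170 : ℝ) ≤ n := by exact_mod_cast hcon
    nlinarith
  have hcell : cell1 al n = true := by
    have h := allTo_spec _ _ allchk_true (al - 2) (by omega)
    have h' := allTo_spec _ _ h (n - 20) (by omega)
    simp only [Bool.and_eq_true] at h'
    have := h'.1
    rwa [show al - 2 + 2 = al by omega, show n - 20 + 20 = n by omega] at this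
  have hok : ok (s1 al n) al n = true := by
    unfold cell1 at hcell
    rw [Nat.ble_eq_true_of_le hc1, Nat.ble_eq_true_of_le hc2] at hcell
    simpa using hcell
  apply cell_sound (s1 al n) al n K _ hn20 (by omega) (by omega) hok (by linarith)
  unfold s1
  rw [sumTo_eq, Finset.mul_sum]
  push_cast
  apply Finset.sum_le_sum
  intro a _
  have har : (0 : ℝ) ≤ a := by positivity
  have d1 := Nat.cast_div_le (α := ℝ) (m := 1000000 * (80 * (n + 1) * (n + 20)))
    (n := 40 * (n + 1) * (n + 60) * a + (n + 20) * (2 * (n + 1) * (n + 1) + 20 * (n + 1) + 400))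
  push_cast at d1
  refine le_trans d1 ?_
  have hL : K ≤ ((n : ℝ) + 1) / 20 := by linarith
  have hB := B_mono hK hL
  have hA : (K + 3) / (2 * (K + 1)) ≤ ((n : ℝ) / 20 + 3) / (2 * ((n : ℝ) / 20 + 1)) := by
    rw [div_le_div_iff₀ (by linarith) (by linarith)]
    nlinarith
  have hden : 0 < (K + 3) / (2 * (K + 1)) * a + (2 * K ^ 2 + K + 1) / (4 * K) := by positivity
  have hle : (K + 3) / (2 * (K + 1)) * a + (2 * K ^ 2 + K + 1) / (4 * K) ≤
      ((n : ℝ) / 20 + 3) / (2 * ((n : ℝ) / 20 + 1)) * a +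
        (2 * (((n : ℝ) + 1) / 20) ^ 2 + ((n : ℝ) + 1) / 20 + 1) / (4 * (((n : ℝ) + 1) / 20)) :=
    add_le_add (mul_le_mul_of_nonneg_right hA har) hB
  have : 1000000 * (80 * ((n : ℝ) + 1) * (n + 20)) /
      (40 * ((n : ℝ) + 1) * (n + 60) * a + (n + 20) * (2 * (n + 1) * (n + 1) + 20 * (n + 1) + 400))
      = 1000000 * (1 / (((n : ℝ) / 20 + 3) / (2 * ((n : ℝ) / 20 + 1)) * a +
        (2 * (((n : ℝ) + 1) / 20) ^ 2 + ((n : ℝ) + 1) / 20 + 1) / (4 * (((n : ℝ) + 1) / 20)))) := by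
    field_simp
    ring
  rw [this]
  exact mul_le_mul_of_nonneg_left (one_div_le_one_div_of_le hden hle) (by norm_num)

theorem grid2 (al : ℕ) (K : ℝ) (h2 : 2 ≤ al) (h59 : al ≤ 63) (hK : 1 ≤ K)
    (hV1 : (al : ℝ) / 2 ≤ K * (K - 1)) (hV2 : K * (K - 1) ≤ (al : ℝ)) :
    (1 - K * (K - 1) / al) * Hr al + K * (K - 1) / al ≤
      ∑ a ∈ Finset.range al, 1 / (1 * (a : ℝ) + (2 * K ^ 2 + K + 1) / (4 * K)) := by
  set n := ⌊20 * K⌋₊ with hn
  have hn1 : (n : ℝ) ≤ 20 * K := Nat.floor_le (by linarith)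
  have hn2 : 20 * K < n + 1 := Nat.lt_floor_add_one _
  have hn20 : 20 ≤ n := Nat.le_floor (by push_cast; linarith)
  have halr : (2 : ℝ) ≤ al := by exact_mod_cast h2
  have halr' : (al : ℝ) ≤ 63 := by exact_mod_cast h59
  have hnr : (20 : ℝ) ≤ n := by exact_mod_cast hn20
  have hc1 : (n * (n - 20)) ≤ 400 * al := by
    have : (n * ((n : ℝ) - 20)) ≤ 400 * al := by nlinarith
    have h' : (((n * (n - 20)) : ℕ) : ℝ) ≤ ((400 * al : ℕ) : ℝ) := by
      push_cast [Nat.cast_sub hn20]; exact this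
    exact_mod_cast h'
  have hc2 : 400 * al ≤ 2 * ((n + 1) * (n - 19)) := by
    have h19 : 19 ≤ n := by omega
    have a2 : 400 * (K * (K - 1)) ≤ ((n : ℝ) + 1) * (n - 19) := by nlinarith
    have : (400 : ℝ) * al ≤ 2 * (((n : ℝ) + 1) * (n - 19)) := by nlinarith
    have h' : ((400 * al : ℕ) : ℝ) ≤ ((2 * ((n + 1) * (n - 19)) : ℕ) : ℝ) := by
      push_cast [Nat.cast_sub h19]; exact this
    exact_mod_cast h'
  have hnlt : n < 170 := by
    by_contra hcon
    rw [not_lt] at hcon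
    have : (170 : ℝ) ≤ n := by exact_mod_cast hcon
    nlinarith
  have hcell : cell2 al n = true := by
    have h := allTo_spec _ _ allchk_true (al - 2) (by omega)
    have h' := allTo_spec _ _ h (n - 20) (by omega)
    simp only [Bool.and_eq_true] at h'
    have := h'.2
    rwa [show al - 2 + 2 = al by omega, show n - 20 + 20 = n by omega] at this
  have hok : ok (s2 al n) al n = true := by
    unfold cell2 at hcell
    rw [Nat.ble_eq_true_of_le hc1, Nat.ble_eq_true_of_le hc2] at hcell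
    simpa using hcell
  apply cell_sound (s2 al n) al n K _ hn20 (by omega) (by omega) hok (by linarith)
  unfold s2
  rw [sumTo_eq, Finset.mul_sum]
  push_cast
  apply Finset.sum_le_sum
  intro a _
  have har : (0 : ℝ) ≤ a := by positivity
  have d1 := Nat.cast_div_le (α := ℝ) (m := 1000000 * (80 * (n + 1)))
    (n := 80 * (n + 1) * a + (2 * (n + 1) * (n + 1) + 20 * (n + 1) + 400))
  push_cast at d1
  refine le_trans d1 ?_
  have hL : K ≤ ((n : ℝ) + 1) / 20 := by linarith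
  have hB := B_mono hK hL
  have hden : 0 < 1 * (a : ℝ) + (2 * K ^ 2 + K + 1) / (4 * K) := by positivity
  have hle : 1 * (a : ℝ) + (2 * K ^ 2 + K + 1) / (4 * K) ≤ 1 * (a : ℝ) +
        (2 * (((n : ℝ) + 1) / 20) ^ 2 + ((n : ℝ) + 1) / 20 + 1) / (4 * (((n : ℝ) + 1) / 20)) :=
    add_le_add le_rfl hB
  have : 1000000 * (80 * ((n : ℝ) + 1)) /
      (80 * ((n : ℝ) + 1) * a + (2 * (n + 1) * (n + 1) + 20 * (n + 1) + 400))
      = 1000000 * (1 / (1 * (a : ℝ) +
        (2 * (((n : ℝ) + 1) / 20) ^ 2 + ((n : ℝ) + 1) / 20 + 1) / (4 * (((n : ℝ) + 1) / 20)))) := by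
    field_simp
    ring
  rw [this]
  exact mul_le_mul_of_nonneg_left (one_div_le_one_div_of_le hden hle) (by norm_num)

end Pool.Agent.Helper66.Spread
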