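import Pool.Agent.Helper66_Spread.Wt

set_option autoImplicit false

namespace Pool.Agent.Helper66.Spread

open Finset

/-- the weights of the problem: `mα` marked among `m(α+s)`, `j` drawn -/
noncomputable def ww (m al s j i : ℕ) : ℝ := wt (m * al) (m * s) j i

noncomputable def Wl (m al s j : ℕ) : ℝ := ∑ i ∈ range al, ww m al s j i
noncomputable def Ml (m al s j : ℕ) : ℝ := ∑ i ∈ range al, ((al : ℝ) - i) * ww m al s j i
noncomputable def Wr (m al s j : ℕ) : ℝ := ∑ i ∈ range (m * (al + s) + 1), ww m al s j (al + i)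
noncomputable def Mr (m al s j : ℕ) : ℝ :=
  ∑ i ∈ range (m * (al + s) + 1), (i : ℝ) * ww m al s j (al + i)
noncomputable def Wt (m al s j : ℕ) : ℝ := Wl m al s j + Wr m al s j

theorem ww_nonneg (m al s j i : ℕ) : 0 ≤ ww m al s j i := wt_nonneg _ _ _ _

theorem Ml_nonneg (m al s j : ℕ) : 0 ≤ Ml m al s j := by
  apply Finset.sum_nonneg
  intro i hi
  have : (i : ℝ) < al := by exact_mod_cast Finset.mem_range.mp hi
  exact mul_nonneg (by linarith) (ww_nonneg _ _ _ _ _)

theorem Wl_nonneg (m al s j : ℕ) : 0 ≤ Wl m al s j :=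
  Finset.sum_nonneg (fun i _ => ww_nonneg _ _ _ _ _)

theorem Wt_eq {m al s j : ℕ} (hj : j ≤ m * (al + s)) :
    Wt m al s j = ((m * (al + s)).choose j : ℝ) := by
  unfold Wt Wl Wr ww
  rw [← Finset.sum_range_add, sum_wt _ _ _ _ (by omega)]
  congr 2
  ring

theorem Wt_pos {m al s j : ℕ} (hj : j ≤ m * (al + s)) : 0 < Wt m al s j := by
  rw [Wt_eq hj]; exact_mod_cast Nat.choose_pos hj

/-- mean -/
theorem mean_fact {m al s j : ℕ} (hm : 1 ≤ m) (hal : 1 ≤ al) (hj : j ≤ m * (al + s)) :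
    Mr m al s j = Ml m al s j + Wt m al s j * (al * ((j : ℝ) - (al + s)) / (al + s)) := by
  have h := sum_tel (m * al) (m * s) j (al + (m * (al + s) + 1))
  rw [Uq_big (by omega), neg_zero, Finset.sum_range_add] at h
  have e1 : ∑ i ∈ range al, wt (m * al) (m * s) j i *
      ((i : ℝ) * (((m * s : ℕ) : ℝ) + ((m * al : ℕ) : ℝ)) - ((m * al : ℕ) : ℝ) * j) =
      -((m : ℝ) * (al + s)) * Ml m al s j + m * al * (al + s - j) * Wl m al s j := by
    unfold Ml Wl ww
    rw [Finset.mul_sum, Finset.mul_sum, ← Finset.sum_add_distrib]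
    apply Finset.sum_congr rfl
    intro i _
    push_cast; ring
  have e2 : ∑ x ∈ range (m * (al + s) + 1), wt (m * al) (m * s) j (al + x) *
      (((al + x : ℕ) : ℝ) * (((m * s : ℕ) : ℝ) + ((m * al : ℕ) : ℝ)) - ((m * al : ℕ) : ℝ) * j) =
      ((m : ℝ) * (al + s)) * Mr m al s j + m * al * (al + s - j) * Wr m al s j := by
    unfold Mr Wr ww
    rw [Finset.mul_sum, Finset.mul_sum, ← Finset.sum_add_distrib]
    apply Finset.sum_congr rfl
    intro i _
    push_cast; ring
  rw [e1, e2] at h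
  have hmr : (1 : ℝ) ≤ m := by exact_mod_cast hm
  have halr : (1 : ℝ) ≤ al := by exact_mod_cast hal
  have hsr : (0 : ℝ) ≤ s := by positivity
  have hp : (0 : ℝ) < (m : ℝ) * (al + s) := by positivity
  have hb : (0 : ℝ) < (al : ℝ) + s := by positivity
  have h2 : Mr m al s j - Ml m al s j = Wt m al s j * (al * ((j : ℝ) - (al + s)) / (al + s)) := by
    have h3 : ((m : ℝ) * (al + s)) * (Mr m al s j - Ml m al s j) =
        ((m : ℝ) * (al + s)) * (Wt m al s j * (al * ((j : ℝ) - (al + s)) / (al + s))) := by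
      have : ((m : ℝ) * (al + s)) * (Wt m al s j * (al * ((j : ℝ) - (al + s)) / (al + s))) =
          m * al * (j - (al + s)) * Wt m al s j := by
        field_simp
      rw [this]; unfold Wt; linarith
    exact mul_left_cancel₀ hp.ne' h3
  linarith

theorem Mr_eq_Ml {m al s : ℕ} (hm : 1 ≤ m) (hal : 1 ≤ al) :
    Mr m al s (al + s) = Ml m al s (al + s) := by
  have h := mean_fact (s := s) (j := al + s) hm hal (Nat.le_mul_of_pos_left _ hm)
  rw [h]; push_cast; simp

/-- `N' M = α (m-1) s w_α` at `j = β` -/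
theorem Ml_eq {m al s : ℕ} :
    ((m : ℝ) * (al + s)) * Ml m al s (al + s) = al * ((m : ℝ) - 1) * s * ww m al s (al + s) al := by
  have h := sum_tel (m * al) (m * s) (al + s) al
  have e1 : ∑ i ∈ range al, wt (m * al) (m * s) (al + s) i *
      ((i : ℝ) * (((m * s : ℕ) : ℝ) + ((m * al : ℕ) : ℝ)) - ((m * al : ℕ) : ℝ) * ((al + s : ℕ) : ℝ)) =
      -((m : ℝ) * (al + s)) * Ml m al s (al + s) := by
    unfold Ml ww
    rw [Finset.mul_sum]
    apply Finset.sum_congr rfl
    intro i _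
    push_cast; ring
  rw [e1] at h
  unfold Uq at h
  unfold ww
  push_cast at h ⊢
  linarith

/-- lower second moment at `j = β` -/
noncomputable def Ql (m al s : ℕ) : ℝ :=
  ∑ i ∈ range al, ((al : ℝ) - i) ^ 2 * ww m al s (al + s) i
noncomputable def Qr (m al s : ℕ) : ℝ :=
  ∑ i ∈ range (m * (al + s) + 1), (i : ℝ) ^ 2 * ww m al s (al + s) (al + i)

theorem Ql_eq {m al s : ℕ} :
    ((m : ℝ) * (al + s) - 1) * Ql m al s = al * ((m : ℝ) - 1) * s * Wl m al s (al + s) +
      (((m : ℝ) - 1) * al + s) * Ml m al s (al + s) := by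
  have h := sum_tel2 (m * al) (m * s) (al + s) al al
  have e1 : ∑ i ∈ range al, ((i : ℝ) - al) * (wt (m * al) (m * s) (al + s) i *
      ((i : ℝ) * (((m * s : ℕ) : ℝ) + ((m * al : ℕ) : ℝ)) -
        ((m * al : ℕ) : ℝ) * ((al + s : ℕ) : ℝ))) =
      ((m : ℝ) * (al + s)) * Ql m al s := by
    unfold Ql ww
    rw [Finset.mul_sum]
    apply Finset.sum_congr rfl
    intro i _
    push_cast; ring
  have e2 : ∑ i ∈ range al, Uq (m * al) (m * s) (al + s) i =
      al * ((m : ℝ) - 1) * s * Wl m al s (al + s) -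
        (al + ((m : ℝ) - 1) * s) * Ml m al s (al + s) + Ql m al s := by
    unfold Ql Wl Ml ww
    rw [Finset.mul_sum, Finset.mul_sum, ← Finset.sum_sub_distrib, ← Finset.sum_add_distrib]
    apply Finset.sum_congr rfl
    intro i _
    unfold Uq
    push_cast; ring
  have e3 : Uq (m * al) (m * s) (al + s) al = ((m : ℝ) * (al + s)) * Ml m al s (al + s) := by
    rw [Ml_eq]; unfold Uq ww; push_cast; ring
  rw [e1, e2, e3] at h
  linarith

theorem Q_eq {m al s : ℕ} (hm : 1 ≤ m) (hal : 1 ≤ al) :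
    ((m : ℝ) * (al + s) - 1) * (Ql m al s + Qr m al s) =
      al * ((m : ℝ) - 1) * s * Wt m al s (al + s) := by
  have hb : al + s ≤ m * (al + s) := Nat.le_mul_of_pos_left _ hm
  have h := sum_tel2 (m * al) (m * s) (al + s) (al + (m * (al + s) + 1)) al
  rw [Uq_big (by omega : al + s < al + (m * (al + s) + 1)), mul_zero, neg_zero, zero_add, add_zero,
    Finset.sum_range_add _ al (m * (al + s) + 1), Finset.sum_range_add _ al (m * (al + s) + 1)] at h
  have e1 : ∑ i ∈ range al, ((i : ℝ) - al) * (wt (m * al) (m * s) (al + s) i *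
      ((i : ℝ) * (((m * s : ℕ) : ℝ) + ((m * al : ℕ) : ℝ)) -
        ((m * al : ℕ) : ℝ) * ((al + s : ℕ) : ℝ))) =
      ((m : ℝ) * (al + s)) * Ql m al s := by
    unfold Ql ww
    rw [Finset.mul_sum]
    apply Finset.sum_congr rfl
    intro i _
    push_cast; ring
  have e1' : ∑ x ∈ range (m * (al + s) + 1), (((al + x : ℕ) : ℝ) - al) *
      (wt (m * al) (m * s) (al + s) (al + x) *
      (((al + x : ℕ) : ℝ) * (((m * s : ℕ) : ℝ) + ((m * al : ℕ) : ℝ)) -
        ((m * al : ℕ) : ℝ) * ((al + s : ℕ) : ℝ))) =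
      ((m : ℝ) * (al + s)) * Qr m al s := by
    unfold Qr ww
    rw [Finset.mul_sum]
    apply Finset.sum_congr rfl
    intro i _
    push_cast; ring
  have e2 : ∑ i ∈ range al, Uq (m * al) (m * s) (al + s) i =
      al * ((m : ℝ) - 1) * s * Wl m al s (al + s) -
        (al + ((m : ℝ) - 1) * s) * Ml m al s (al + s) + Ql m al s := by
    unfold Ql Wl Ml ww
    rw [Finset.mul_sum, Finset.mul_sum, ← Finset.sum_sub_distrib, ← Finset.sum_add_distrib]
    apply Finset.sum_congr rfl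
    intro i _
    unfold Uq
    push_cast; ring
  have e2' : ∑ x ∈ range (m * (al + s) + 1), Uq (m * al) (m * s) (al + s) (al + x) =
      al * ((m : ℝ) - 1) * s * Wr m al s (al + s) +
        (al + ((m : ℝ) - 1) * s) * Mr m al s (al + s) + Qr m al s := by
    unfold Qr Wr Mr ww
    rw [Finset.mul_sum, Finset.mul_sum, ← Finset.sum_add_distrib, ← Finset.sum_add_distrib]
    apply Finset.sum_congr rfl
    intro i _
    unfold Uq
    push_cast; ring
  rw [e1, e1', e2, e2', Mr_eq_Ml hm hal] at h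
  unfold Wt
  linarith

theorem Ml_sq_le {m al s : ℕ} : Ml m al s (al + s) ^ 2 ≤ Wl m al s (al + s) * Ql m al s := by
  unfold Ml Wl Ql
  apply Finset.sum_sq_le_sum_mul_sum_of_sq_le_mul
  · intro i _; exact ww_nonneg _ _ _ _ _
  · intro i _; exact mul_nonneg (sq_nonneg _) (ww_nonneg _ _ _ _ _)
  · intro i _; exact le_of_eq (by ring)

theorem M_sq_le {m al s : ℕ} (hm : 1 ≤ m) (hal : 1 ≤ al) :
    4 * Ml m al s (al + s) ^ 2 ≤ Wt m al s (al + s) * (Ql m al s + Qr m al s) := by
  have hMr : Mr m al s (al + s) ^ 2 ≤ Wr m al s (al + s) * Qr m al s := by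
    unfold Mr Wr Qr
    apply Finset.sum_sq_le_sum_mul_sum_of_sq_le_mul
    · intro i _; exact ww_nonneg _ _ _ _ _
    · intro i _; exact mul_nonneg (sq_nonneg _) (ww_nonneg _ _ _ _ _)
    · intro i _; exact le_of_eq (by ring)
  have hMl := Ml_sq_le (m := m) (al := al) (s := s)
  rw [Mr_eq_Ml hm hal] at hMr
  have w1 := Wl_nonneg m al s (al + s)
  have w2 : 0 ≤ Wr m al s (al + s) := Finset.sum_nonneg (fun i _ => ww_nonneg _ _ _ _ _)
  have q1 : 0 ≤ Ql m al s :=
    Finset.sum_nonneg (fun i _ => mul_nonneg (sq_nonneg _) (ww_nonneg _ _ _ _ _))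
  have q2 : 0 ≤ Qr m al s :=
    Finset.sum_nonneg (fun i _ => mul_nonneg (sq_nonneg _) (ww_nonneg _ _ _ _ _))
  have hM := Ml_nonneg m al s (al + s)
  unfold Wt
  generalize Ml m al s (al + s) = M at *
  generalize Wl m al s (al + s) = a at *
  generalize Wr m al s (al + s) = b at *
  generalize Ql m al s = c at *
  generalize Qr m al s = d at *
  -- `M² ≤ a c`, `M² ≤ b d` imply `4 M² ≤ (a+b)(c+d)`
  have h1 : M ^ 2 * M ^ 2 ≤ (a * c) * (b * d) := mul_le_mul hMl hMr (sq_nonneg M) (mul_nonneg w1 q1)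
  have h2 : 2 * M ^ 2 ≤ a * d + b * c := by
    have h3 : (2 * M ^ 2) ^ 2 ≤ (a * d + b * c) ^ 2 := by
      nlinarith [sq_nonneg (a * d - b * c)]
    exact le_of_sq_le_sq h3 (by positivity)
  nlinarith

end Pool.Agent.Helper66.Spread
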