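import Pool.Agent.Helper66_Spread.Step

set_option autoImplicit false

namespace Pool.Agent.Helper66.Spread

open Finset

theorem Hr_diff (a i : ℕ) : Hr (a + i) - Hr i = ∑ x ∈ range a, 1 / ((i : ℝ) + x + 1) := by
  unfold Hr
  rw [Nat.add_comm a i, Finset.sum_range_add, add_sub_cancel_left]
  apply Finset.sum_congr rfl
  intro x _
  push_cast; ring

theorem Ml_le_Wl (m al s j : ℕ) : Ml m al s j ≤ al * Wl m al s j := by
  unfold Wl Ml
  rw [Finset.mul_sum]
  apply Finset.sum_le_sum
  intro i _
  have h0 : (0 : ℝ) ≤ i := by positivity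
  have := ww_nonneg m al s j i
  nlinarith

theorem split_sum (al L : ℕ) (u v w : ℕ → ℝ) :
    ∑ i ∈ range (al + L), (if i < al then u i else v i) * w i =
      ∑ i ∈ range al, u i * w i + ∑ i ∈ range L, v (al + i) * w (al + i) := by
  rw [Finset.sum_range_add]
  congr 1
  · apply Finset.sum_congr rfl
    intro i hi
    rw [if_pos (Finset.mem_range.mp hi)]
  · apply Finset.sum_congr rfl
    intro i _
    rw [if_neg (by omega)]

theorem star_norm {m al s j : ℕ} (hm : 1 ≤ m) (hal : 1 ≤ al) (hs : 1 ≤ s) (hj1 : al + s ≤ j)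
    (hj2 : j ≤ m * (al + s)) :
    (al : ℝ) / (al + s) * ∑ b ∈ range (al + s), 1 / (((j : ℝ) - (al + s)) + ((b : ℝ) + 1)) ≤
      ∑ a ∈ range al, 1 / (((a : ℝ) + 1) * (Wr m al s j / Wt m al s j) +
        Mr m al s j / Wt m al s j) := by
  have hb : al + s ≤ m * (al + s) := Nat.le_mul_of_pos_left _ hm
  have halr : (1 : ℝ) ≤ al := by exact_mod_cast hal
  have hsr : (1 : ℝ) ≤ s := by exact_mod_cast hs
  have hjr : (al : ℝ) + s ≤ j := by exact_mod_cast hj1
  have hWj := Wt_pos hj2
  have hWb := Wt_pos hb
  set L := m * (al + s) + 1 with hL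
  have hmlr : ∀ i k, i ≤ k → ww m al s (al + s) k * ww m al s j i ≤
      ww m al s (al + s) i * ww m al s j k := fun i k hik => wt_mlr _ _ _ _ _ _ hj1 hik
  -- sums
  have sW : ∀ q, ∑ i ∈ range (al + L), (1 : ℝ) * ww m al s q i = Wt m al s q := by
    intro q
    simp only [one_mul]
    rw [Finset.sum_range_add]; rfl
  have sWl : ∀ q, ∑ i ∈ range (al + L), (if i < al then (1 : ℝ) else 0) * ww m al s q i =
      Wl m al s q := by
    intro q
    rw [split_sum al L (fun _ => 1) (fun _ => 0)]
    simp [Wl]
  have sMl : ∀ q, ∑ i ∈ range (al + L), (if i < al then (al : ℝ) - i else 0) * ww m al s q i =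
      Ml m al s q := by
    intro q
    rw [split_sum al L (fun i => (al : ℝ) - i) (fun _ => 0)]
    simp [Ml]
  have sWr : ∀ q, ∑ i ∈ range (al + L), (if i < al then (0 : ℝ) else 1) * ww m al s q i =
      Wr m al s q := by
    intro q
    rw [split_sum al L (fun _ => 0) (fun _ => 1)]
    simp [Wr, hL]
  have sMr : ∀ q, ∑ i ∈ range (al + L), (if i < al then (0 : ℝ) else (i : ℝ) - al) *
      ww m al s q i = Mr m al s q := by
    intro q
    rw [split_sum al L (fun _ => 0) (fun i => (i : ℝ) - al)]
    simp [Mr, hL]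
  have F1 : Wt m al s (al + s) * Wl m al s j ≤ Wt m al s j * Wl m al s (al + s) := by
    have h := ratio_mono (al + L) (ww m al s (al + s)) (ww m al s j) (fun _ => 1)
      (fun i => if i < al then (1 : ℝ) else 0) hmlr (by
        intro i k hik
        split_ifs <;> first | omega | norm_num)
    rw [sW, sW, sWl, sWl] at h
    exact h
  have F2 : Wl m al s (al + s) * Ml m al s j ≤ Wl m al s j * Ml m al s (al + s) := by
    have h := ratio_mono (al + L) (ww m al s (al + s)) (ww m al s j)
      (fun i => if i < al then (1 : ℝ) else 0)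
      (fun i => if i < al then (al : ℝ) - i else 0) hmlr (by
        intro i k hik
        have hikr : (i : ℝ) ≤ k := by exact_mod_cast hik
        show (if i < al then (1 : ℝ) else 0) * (if k < al then (al : ℝ) - k else 0) ≤
          (if k < al then (1 : ℝ) else 0) * (if i < al then (al : ℝ) - i else 0)
        rcases Nat.lt_or_ge k al with h1 | h1
        · rw [if_pos (by omega : i < al), if_pos h1, if_pos h1, if_pos (by omega : i < al)]
          linarith
        · rw [if_neg (by omega : ¬ k < al), if_neg (by omega : ¬ k < al)]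
          simp)
    rw [sWl, sWl, sMl, sMl] at h
    exact h
  have F3 : Mr m al s (al + s) * Wr m al s j ≤ Mr m al s j * Wr m al s (al + s) := by
    have h := ratio_mono (al + L) (ww m al s (al + s)) (ww m al s j)
      (fun i => if i < al then (0 : ℝ) else (i : ℝ) - al)
      (fun i => if i < al then (0 : ℝ) else 1) hmlr (by
        intro i k hik
        have hikr : (i : ℝ) ≤ k := by exact_mod_cast hik
        show (if i < al then (0 : ℝ) else (i : ℝ) - al) * (if k < al then (0 : ℝ) else 1) ≤
          (if k < al then (0 : ℝ) else (k : ℝ) - al) * (if i < al then (0 : ℝ) else 1)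
        rcases Nat.lt_or_ge i al with h1 | h1
        · rw [if_pos h1, if_pos h1]; simp
        · rw [if_neg (by omega : ¬ i < al), if_neg (by omega : ¬ i < al),
            if_neg (by omega : ¬ k < al), if_neg (by omega : ¬ k < al)]
          linarith)
    rw [sMr, sMr, sWr, sWr] at h
    exact h
  have hmean := mean_fact (m := m) (al := al) (s := s) (j := j) hm hal hj2
  have hmeanb := Mr_eq_Ml (m := m) (al := al) (s := s) hm hal
  set D : ℝ := (j : ℝ) - (al + s) with hD
  have hD0 : 0 ≤ D := by linarith
  set d : ℝ := al * D / (al + s) with hd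
  have hd0 : 0 ≤ d := by positivity
  have hdD : d ≤ D := by
    rw [hd, div_le_iff₀ (by positivity)]; nlinarith
  have hwr : ∀ q, Wr m al s q = Wt m al s q - Wl m al s q := fun q => by unfold Wt; ring
  have e1 : Wr m al s j / Wt m al s j = 1 - Wl m al s j / Wt m al s j := by
    rw [hwr, sub_div, div_self hWj.ne']
  have e2 : Mr m al s j / Wt m al s j = d + Ml m al s j / Wt m al s j := by
    rw [hmean, add_div, mul_div_cancel_left₀ _ hWj.ne', add_comm]
  have e3 : Wr m al s (al + s) / Wt m al s (al + s) =
      1 - Wl m al s (al + s) / Wt m al s (al + s) := by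
    rw [hwr, sub_div, div_self hWb.ne']
  have hWl0 := Wl_nonneg m al s j
  have hMl0 := Ml_nonneg m al s j
  have hMlb := Ml_nonneg m al s (al + s)
  have hkey := key_beta (m := m) (al := al) (s := s) hm hal hs
  have hsB := stepB al (fun a => 1 / hh al (al + s) a)
    (fun a => hh_base hal (by omega) a) (fun a => hh_step hal (by omega) a)
    (D := D) (d := d) (p0 := Wl m al s (al + s) / Wt m al s (al + s))
    (M0 := Ml m al s (al + s) / Wt m al s (al + s)) (p := Wl m al s j / Wt m al s j)
    (Mm := Ml m al s j / Wt m al s j) hd0 hdD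
    (by
      rw [div_lt_one hWb]
      have := Wr_pos (m := m) (al := al) (s := s) hm
      unfold Wt; linarith)
    (by positivity)
    (by rw [div_le_div_iff₀ hWj hWb]; linarith)
    (by positivity) (by positivity)
    (by
      rw [div_mul_div_comm, div_mul_div_comm, mul_comm (Wt m al s (al + s)) (Wt m al s j)]
      apply div_le_div_of_nonneg_right _ (by positivity)
      linarith)
    (by
      rw [← e1, ← e2, ← e3, ← hmeanb, div_mul_div_comm, div_mul_div_comm,
        mul_comm (Wt m al s (al + s)) (Wt m al s j)]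
      apply div_le_div_of_nonneg_right _ (by positivity)
      linarith)
    (by
      intro h
      have h1 : Wl m al s j = 0 := by
        rcases div_eq_zero_iff.mp h with h' | h'
        · exact h'
        · exact absurd h' hWj.ne'
      have h2 := Ml_le_Wl m al s j
      rw [h1, mul_zero] at h2
      rw [le_antisymm h2 hMl0, zero_div])
    (by
      have : ∑ a ∈ range al, 1 / (1 / hh al (al + s) a) = (al : ℝ) / (al + s) * Hr (al + s) := by
        rw [Finset.sum_congr rfl (fun a _ => one_div_one_div (hh al (al + s) a)), hh_sum _ _ hal]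
        push_cast; rfl
      rw [this]; exact hkey)
  have hle := hh_le al (al + s) hal (by omega) hD0
  rw [e1, e2]
  refine le_trans ?_ (le_trans hle hsB)
  push_cast
  exact le_rfl

/-- the function `φ_α(j)` -/
noncomputable def phi (a j : ℕ) : ℝ := if a ≤ j then (a : ℝ) / (Hr j - Hr (j - a)) else 0

theorem Hr_diff_pos {a j : ℕ} (ha : 1 ≤ a) (h : a ≤ j) : 0 < Hr j - Hr (j - a) := by
  obtain ⟨k, rfl⟩ : ∃ k, j = a + k := ⟨j - a, by omega⟩
  rw [Nat.add_sub_cancel_left, Hr_diff]
  apply Finset.sum_pos
  · intro x _; positivity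
  · exact ⟨0, Finset.mem_range.mpr ha⟩

theorem phi_nonneg {a : ℕ} (ha : 1 ≤ a) (j : ℕ) : 0 ≤ phi a j := by
  unfold phi
  split_ifs with h
  · exact div_nonneg (by positivity) (Hr_diff_pos ha h).le
  · exact le_rfl

/-- the main comparison, `β ≤ j ≤ mβ` -/
theorem star {m al s j : ℕ} (hm : 1 ≤ m) (hal : 1 ≤ al) (hs : 1 ≤ s) (hj1 : al + s ≤ j)
    (hj2 : j ≤ m * (al + s)) :
    ∑ i ∈ range (al + (m * (al + s) + 1)), wt (m * al) (m * s) j i * phi al i ≤
      ((m * (al + s)).choose j : ℝ) * phi (al + s) j := by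
  have halr : (1 : ℝ) ≤ al := by exact_mod_cast hal
  have hsr : (1 : ℝ) ≤ s := by exact_mod_cast hs
  have hjr : (al : ℝ) + s ≤ j := by exact_mod_cast hj1
  have hW := Wt_pos hj2
  rw [Finset.sum_range_add]
  have z : ∑ x ∈ range al, wt (m * al) (m * s) j x * phi al x = 0 := by
    apply Finset.sum_eq_zero
    intro x hx
    have := Finset.mem_range.mp hx
    unfold phi
    rw [if_neg (by omega), mul_zero]
  rw [z, zero_add]
  have e1 : ∑ x ∈ range (m * (al + s) + 1), wt (m * al) (m * s) j (al + x) * phi al (al + x) =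
      al * ∑ i ∈ range (m * (al + s) + 1), ww m al s j (al + i) *
        (1 / ∑ a ∈ range al, 1 / ((i : ℝ) + a + 1)) := by
    rw [Finset.mul_sum]
    apply Finset.sum_congr rfl
    intro i _
    unfold phi ww
    rw [if_pos (by omega), Nat.add_sub_cancel_left, Hr_diff]
    ring
  rw [e1]
  have hn := star_norm (m := m) (al := al) (s := s) (j := j) hm hal hs hj1 hj2
  have hT : 0 < ∑ b ∈ range (al + s), 1 / (((j : ℝ) - (al + s)) + ((b : ℝ) + 1)) := by
    apply Finset.sum_pos
    · intro b _
      have : (0 : ℝ) < ((j : ℝ) - (al + s)) + ((b : ℝ) + 1) := by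
        have : (0 : ℝ) ≤ b := by positivity
        linarith
      positivity
    · exact ⟨0, Finset.mem_range.mpr (by omega)⟩
  have hWr : 0 < ∑ i ∈ range (m * (al + s) + 1), ww m al s j (al + i) := by
    by_contra hcon
    have h0 : Wr m al s j = 0 := le_antisymm (not_lt.mp hcon)
      (Finset.sum_nonneg (fun i _ => ww_nonneg _ _ _ _ _))
    -- then the mean would be too small
    have hmean := mean_fact (m := m) (al := al) (s := s) (j := j) hm hal hj2
    have hMr0 : Mr m al s j = 0 := by
      unfold Mr
      apply Finset.sum_eq_zero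
      intro i hi
      have hz : ww m al s j (al + i) = 0 := by
        have := (Finset.sum_eq_zero_iff_of_nonneg (fun i _ => ww_nonneg m al s j (al + i))).mp h0
        exact this i hi
      rw [hz, mul_zero]
    have hMl := Ml_nonneg m al s j
    have hWM := Wl_le_Ml m al s j
    have hd : 0 ≤ Wt m al s j * (al * ((j : ℝ) - (al + s)) / (al + s)) :=
      mul_nonneg hW.le (div_nonneg (mul_nonneg (by linarith) (by linarith)) (by linarith))
    have : Wt m al s j = Wl m al s j := by unfold Wt; rw [h0, add_zero]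
    linarith
  have hj := hm_jensen (m * (al + s) + 1) al hal (fun i => ww m al s j (al + i))
    (fun i => ww_nonneg _ _ _ _ _) hWr
  have hS : ∑ a ∈ range al, 1 / (((a : ℝ) + 1) * ∑ i ∈ range (m * (al + s) + 1),
      ww m al s j (al + i) + ∑ i ∈ range (m * (al + s) + 1), (i : ℝ) * ww m al s j (al + i)) =
      (1 / Wt m al s j) * ∑ a ∈ range al, 1 / (((a : ℝ) + 1) * (Wr m al s j / Wt m al s j) +
        Mr m al s j / Wt m al s j) := by
    rw [Finset.mul_sum]
    apply Finset.sum_congr rfl
    intro a _
    show 1 / (((a : ℝ) + 1) * Wr m al s j + Mr m al s j) = _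
    have : ((a : ℝ) + 1) * (Wr m al s j / Wt m al s j) + Mr m al s j / Wt m al s j =
      (((a : ℝ) + 1) * Wr m al s j + Mr m al s j) / Wt m al s j := by ring
    rw [this, one_div_div, ← mul_div_assoc, one_div_mul_cancel hW.ne']
  rw [hS] at hj
  set T := ∑ b ∈ range (al + s), 1 / (((j : ℝ) - (al + s)) + ((b : ℝ) + 1)) with hTd
  set S := ∑ a ∈ range al, 1 / (((a : ℝ) + 1) * (Wr m al s j / Wt m al s j) +
        Mr m al s j / Wt m al s j) with hSd
  have hAT : 0 < (al : ℝ) / (al + s) * T := by positivity
  have h1 : 1 / (1 / Wt m al s j * S) ≤ 1 / (1 / Wt m al s j * ((al : ℝ) / (al + s) * T)) :=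
    one_div_le_one_div_of_le (by positivity) (mul_le_mul_of_nonneg_left hn (by positivity))
  have h2 := mul_le_mul_of_nonneg_left (le_trans hj h1) (by linarith : (0 : ℝ) ≤ al)
  refine le_trans h2 (le_of_eq ?_)
  unfold phi
  rw [if_pos hj1, ← Wt_eq hj2]
  obtain ⟨k, rfl⟩ : ∃ k, j = al + s + k := ⟨j - (al + s), by omega⟩
  rw [Nat.add_sub_cancel_left, Hr_diff]
  have hTT : T = ∑ x ∈ range (al + s), 1 / ((k : ℝ) + x + 1) := by
    rw [hTd]
    apply Finset.sum_congr rfl
    intro x _
    push_cast; congr 1; ring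
  rw [← hTT]
  push_cast
  field_simp

end Pool.Agent.Helper66.Spread
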