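import Pool.Agent.Helper66_Spread.Beta

set_option autoImplicit false

namespace Pool.Agent.Helper66.Spread

open Finset

theorem sc_sum (n : ℕ) (c t : ℕ → ℝ) (hc : ∀ a b, a ≤ b → b < n → c a ≤ c b)
    (hc0 : ∀ a, a < n → 0 ≤ c a) (ht : ∀ a b, a ≤ b → b < n → 0 ≤ t a → 0 ≤ t b)
    (h : 0 ≤ ∑ a ∈ range n, t a) : 0 ≤ ∑ a ∈ range n, c a * t a := by
  classical
  by_cases hex : ∃ a, a < n ∧ 0 ≤ t a
  · set a0 := Nat.find hex with ha0
    have hs := Nat.find_spec hex
    have hmin : ∀ a, a < a0 → ¬ (a < n ∧ 0 ≤ t a) := fun a ha => Nat.find_min hex ha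
    have h1 : ∑ a ∈ range n, c a0 * t a ≤ ∑ a ∈ range n, c a * t a := by
      apply Finset.sum_le_sum
      intro a ha
      have han := Finset.mem_range.mp ha
      rcases Nat.lt_or_ge a a0 with hlt | hge
      · have h2 := hmin a hlt
        have h3 : t a < 0 := by
          by_contra hcon
          exact h2 ⟨han, not_lt.mp hcon⟩
        have h4 := hc a a0 hlt.le hs.1
        nlinarith
      · have h3 := ht a0 a hge han hs.2
        have h4 := hc a0 a hge han
        nlinarith
    rw [← Finset.mul_sum] at h1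
    exact le_trans (mul_nonneg (hc0 a0 hs.1) h) h1
  · rcases Nat.eq_zero_or_pos n with h0 | hpos
    · subst h0; simp
    · exfalso
      have : ∑ a ∈ range n, t a < 0 := by
        apply Finset.sum_neg
        · intro a ha
          by_contra hcon
          exact hex ⟨a, Finset.mem_range.mp ha, not_lt.mp hcon⟩
        · exact ⟨0, Finset.mem_range.mpr hpos⟩
      linarith

theorem stepB (al : ℕ) (β : ℕ → ℝ) (hb0 : ∀ a : ℕ, (a : ℝ) + 1 ≤ β a)
    (hb1 : ∀ a : ℕ, β a + 1 ≤ β (a + 1)) {D d p0 M0 p Mm : ℝ} (hd : 0 ≤ d) (hdD : d ≤ D)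
    (hp01 : p0 < 1) (hp : 0 ≤ p) (hpp : p ≤ p0) (hM0 : 0 ≤ M0) (hMm : 0 ≤ Mm)
    (F2 : Mm * p0 ≤ M0 * p) (F3 : M0 * (1 - p) ≤ (d + Mm) * (1 - p0)) (hz : p = 0 → Mm = 0)
    (h0 : ∑ a ∈ range al, 1 / β a ≤ ∑ a ∈ range al, 1 / (((a : ℝ) + 1) * (1 - p0) + M0)) :
    ∑ a ∈ range al, 1 / (D + β a) ≤
      ∑ a ∈ range al, 1 / (((a : ℝ) + 1) * (1 - p) + (d + Mm)) := by
  have hbp : ∀ a : ℕ, 0 < β a := fun a => lt_of_lt_of_le (by positivity) (hb0 a)
  have hbmono : ∀ a b : ℕ, a ≤ b → β a ≤ β b := by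
    intro a b hab
    induction b, hab using Nat.le_induction with
    | base => exact le_rfl
    | succ b _ ih => linarith [hb1 b]
  have hbmono2 : ∀ a b : ℕ, a ≤ b → β a + ((b : ℝ) - a) ≤ β b := by
    intro a b hab
    induction b, hab using Nat.le_induction with
    | base => simp
    | succ b _ ih => push_cast; linarith [hb1 b]
  have hD : 0 ≤ D := by linarith
  have hx : ∀ a : ℕ, 0 < ((a : ℝ) + 1) * (1 - p) + (d + Mm) := by
    intro a
    have : 0 < ((a : ℝ) + 1) * (1 - p) := mul_pos (by positivity) (by linarith)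
    linarith
  have hx0 : ∀ a : ℕ, 0 < ((a : ℝ) + 1) * (1 - p0) + M0 := by
    intro a
    have : 0 < ((a : ℝ) + 1) * (1 - p0) := mul_pos (by positivity) (by linarith)
    linarith
  rcases eq_or_lt_of_le hp with hp0' | hppos
  · have hM := hz hp0'.symm
    apply Finset.sum_le_sum
    intro a _
    apply one_div_le_one_div_of_le (hx a)
    rw [← hp0', hM]
    linarith [hb0 a]
  · have hp0pos : 0 < p0 := lt_of_lt_of_le hppos hpp
    have hsc := sc_sum al
      (fun a => ((((a : ℝ) + 1) * (1 - p0) + M0) * β a) /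
        ((((a : ℝ) + 1) * (1 - p) + (d + Mm)) * (D + β a)))
      (fun a => 1 / (((a : ℝ) + 1) * (1 - p0) + M0) - 1 / β a)
      (by
        intro a b hab _
        have habr : (a : ℝ) ≤ b := by exact_mod_cast hab
        have h1 : (((a : ℝ) + 1) * (1 - p0) + M0) / (((a : ℝ) + 1) * (1 - p) + (d + Mm)) ≤
            (((b : ℝ) + 1) * (1 - p0) + M0) / (((b : ℝ) + 1) * (1 - p) + (d + Mm)) := by
          rw [div_le_div_iff₀ (hx a) (hx b)]
          nlinarith [mul_nonneg (sub_nonneg.mpr habr) (sub_nonneg.mpr F3)]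
        have h2 : β a / (D + β a) ≤ β b / (D + β b) := by
          rw [div_le_div_iff₀ (by linarith [hbp a]) (by linarith [hbp b])]
          nlinarith [mul_nonneg hD (sub_nonneg.mpr (hbmono a b hab))]
        have e1 : ∀ c : ℕ, ((((c : ℝ) + 1) * (1 - p0) + M0) * β c) /
            ((((c : ℝ) + 1) * (1 - p) + (d + Mm)) * (D + β c)) =
            (((c : ℝ) + 1) * (1 - p0) + M0) / (((c : ℝ) + 1) * (1 - p) + (d + Mm)) *
              (β c / (D + β c)) := fun c => by rw [div_mul_div_comm]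
        show _ ≤ _
        simp only [e1]
        exact mul_le_mul h1 h2 (div_nonneg (hbp a).le (by linarith [hbp a]))
          (div_nonneg (hx0 b).le (hx b).le))
      (by
        intro a _
        exact div_nonneg (mul_nonneg (hx0 a).le (hbp a).le)
          (mul_nonneg (hx a).le (by linarith [hbp a])))
      (by
        intro a b hab _ hta
        have habr : (a : ℝ) ≤ b := by exact_mod_cast hab
        have h1 : ((a : ℝ) + 1) * (1 - p0) + M0 ≤ β a := by
          have := sub_nonneg.mp hta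
          exact le_of_one_div_le_one_div (hbp a) this
        have h2 : ((b : ℝ) + 1) * (1 - p0) + M0 ≤ β b := by
          have := hbmono2 a b hab
          nlinarith [mul_nonneg (sub_nonneg.mpr habr) hp0pos.le]
        exact sub_nonneg.mpr (one_div_le_one_div_of_le (hx0 b) h2))
      (by rw [Finset.sum_sub_distrib]; linarith)
    have hterm : ∀ a ∈ range al, p / p0 * ((((((a : ℝ) + 1) * (1 - p0) + M0) * β a) /
        ((((a : ℝ) + 1) * (1 - p) + (d + Mm)) * (D + β a))) *
        (1 / (((a : ℝ) + 1) * (1 - p0) + M0) - 1 / β a)) ≤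
        1 / (((a : ℝ) + 1) * (1 - p) + (d + Mm)) - 1 / (D + β a) := by
      intro a _
      have k1 := hx a
      have k2 := hx0 a
      have k3 := hbp a
      have k4 : 0 < D + β a := by linarith
      have hN : ((((a : ℝ) + 1) * (1 - p0) + M0) * β a) /
        ((((a : ℝ) + 1) * (1 - p) + (d + Mm)) * (D + β a)) *
        (1 / (((a : ℝ) + 1) * (1 - p0) + M0) - 1 / β a) =
        (β a - (((a : ℝ) + 1) * (1 - p0) + M0)) /
          ((((a : ℝ) + 1) * (1 - p) + (d + Mm)) * (D + β a)) := by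
        have := k2.ne'
        field_simp
      have hN2 : 1 / (((a : ℝ) + 1) * (1 - p) + (d + Mm)) - 1 / (D + β a) =
          ((D + β a) - (((a : ℝ) + 1) * (1 - p) + (d + Mm))) /
          ((((a : ℝ) + 1) * (1 - p) + (d + Mm)) * (D + β a)) := by
        have := k1.ne'
        field_simp
      rw [hN, hN2, mul_div_assoc']
      apply div_le_div_of_nonneg_right _ (mul_pos k1 k4).le
      rw [div_mul_eq_mul_div, div_le_iff₀ hp0pos]
      have hba := hb0 a
      nlinarith [mul_nonneg (sub_nonneg.mpr hdD) hp0pos.le,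
        mul_nonneg (sub_nonneg.mpr hba) (sub_nonneg.mpr hpp)]
    have hsum := Finset.sum_le_sum hterm
    rw [← Finset.mul_sum, Finset.sum_sub_distrib] at hsum
    have : 0 ≤ p / p0 * ∑ a ∈ range al, (((((a : ℝ) + 1) * (1 - p0) + M0) * β a) /
        ((((a : ℝ) + 1) * (1 - p) + (d + Mm)) * (D + β a))) *
        (1 / (((a : ℝ) + 1) * (1 - p0) + M0) - 1 / β a) := mul_nonneg (by positivity) hsc
    linarith

/-- Jensen for `u/(1+Du)` -/
theorem jensen (n : ℕ) (hn : 1 ≤ n) (c : ℕ → ℝ) (hc : ∀ t, 1 ≤ c t) {D : ℝ} (hD : 0 ≤ D) :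
    (1 / (n : ℝ)) * ∑ t ∈ range n, 1 / (D + c t) ≤
      1 / (D + 1 / ((1 / (n : ℝ)) * ∑ t ∈ range n, 1 / c t)) := by
  have hnr : (0 : ℝ) < n := by exact_mod_cast hn
  set h := (1 / (n : ℝ)) * ∑ t ∈ range n, 1 / c t with hh
  have hpos : 0 < ∑ t ∈ range n, 1 / c t := by
    apply Finset.sum_pos
    · intro t _; have := hc t; positivity
    · exact ⟨0, Finset.mem_range.mpr hn⟩
  have hh0 : 0 < h := by rw [hh]; positivity
  have hterm : ∀ t ∈ range n, 1 / (D + c t) ≤
      1 / (D + 1 / h) + (1 / c t - h) / (1 + D * h) ^ 2 := by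
    intro t _
    have hct := hc t
    have hct0 : 0 < c t := by linarith
    generalize c t = x at hct hct0
    have e : 1 / (D + 1 / h) + (1 / x - h) / (1 + D * h) ^ 2 - 1 / (D + x) =
        D * (1 - x * h) ^ 2 / (x * (D + x) * (1 + D * h) ^ 2) := by
      have h1 : D + 1 / h ≠ 0 := by positivity
      have h2 : D * h + 1 ≠ 0 := by positivity
      have h3 : (1 + D * h) ≠ 0 := by positivity
      have h4 : 1 / (D + 1 / h) = h / (1 + D * h) := by
        rw [div_eq_div_iff h1 h3]; field_simp; ring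
      rw [h4]
      field_simp
      ring
    have : 0 ≤ D * (1 - x * h) ^ 2 / (x * (D + x) * (1 + D * h) ^ 2) := by positivity
    linarith
  have hs := Finset.sum_le_sum hterm
  have e2 : ∑ t ∈ range n, 1 / c t = n * h := by rw [hh]; field_simp
  have e3 : ∑ t ∈ range n, (1 / c t - h) / (1 + D * h) ^ 2 = 0 := by
    rw [← Finset.sum_div, Finset.sum_sub_distrib, e2, Finset.sum_const, Finset.card_range,
      nsmul_eq_mul, sub_self, zero_div]
  rw [Finset.sum_add_distrib, e3, add_zero, Finset.sum_const, Finset.card_range,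
    nsmul_eq_mul] at hs
  calc (1 / (n : ℝ)) * ∑ t ∈ range n, 1 / (D + c t)
      ≤ (1 / (n : ℝ)) * (n * (1 / (D + 1 / h))) := mul_le_mul_of_nonneg_left hs (by positivity)
    _ = 1 / (D + 1 / h) := by rw [← mul_assoc, one_div_mul_cancel hnr.ne', one_mul]

theorem block (f : ℕ → ℝ) (x y : ℕ) :
    ∑ i ∈ range (x * y), f i = ∑ i ∈ range x, ∑ j ∈ range y, f (y * i + j) := by
  induction x with
  | zero => simp
  | succ x ih =>
    rw [Finset.sum_range_succ, ← ih, Nat.succ_mul, Finset.sum_range_add, Nat.mul_comm x y]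

/-- the grouped denominators -/
noncomputable def cc (al be a t : ℕ) : ℝ := (((be * a + t) / al : ℕ) : ℝ) + 1

noncomputable def hh (al be a : ℕ) : ℝ := (1 / (be : ℝ)) * ∑ t ∈ range be, 1 / cc al be a t

theorem cc_ge (al be a t : ℕ) : 1 ≤ cc al be a t := by
  unfold cc
  have : (0 : ℝ) ≤ (((be * a + t) / al : ℕ) : ℝ) := by positivity
  linarith

theorem group_sum (al be : ℕ) (hal : 1 ≤ al) (D : ℝ) :
    ∑ a ∈ range al, ∑ t ∈ range be, 1 / (D + cc al be a t) =
      al * ∑ b ∈ range be, 1 / (D + ((b : ℝ) + 1)) := by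
  have h1 := block (fun i => 1 / (D + (((i / al : ℕ) : ℝ) + 1))) al be
  have h2 := block (fun i => 1 / (D + (((i / al : ℕ) : ℝ) + 1))) be al
  rw [Nat.mul_comm be al] at h2
  rw [h1] at h2
  have e1 : ∑ a ∈ range al, ∑ t ∈ range be, 1 / (D + cc al be a t) =
      ∑ i ∈ range al, ∑ j ∈ range be, 1 / (D + ((((be * i + j) / al : ℕ) : ℝ) + 1)) := rfl
  rw [e1, h2, Finset.mul_sum]
  apply Finset.sum_congr rfl
  intro b _
  rw [Finset.sum_congr rfl (g := fun _ => 1 / (D + ((b : ℝ) + 1))) (by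
    intro r hr
    have hr' := Finset.mem_range.mp hr
    have : (al * b + r) / al = b := by
      rw [Nat.mul_add_div (by omega), Nat.div_eq_of_lt hr', add_zero]
    rw [this])]
  rw [Finset.sum_const, Finset.card_range, nsmul_eq_mul]

theorem hh_pos {al be a : ℕ} (hbe : 1 ≤ be) : 0 < hh al be a := by
  unfold hh
  have hnr : (0 : ℝ) < be := by exact_mod_cast hbe
  have hpos : 0 < ∑ t ∈ range be, 1 / cc al be a t := by
    apply Finset.sum_pos
    · intro t _; have := cc_ge al be a t; positivity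
    · exact ⟨0, Finset.mem_range.mpr hbe⟩
  positivity

theorem hh_sum (al be : ℕ) (hal : 1 ≤ al) :
    ∑ a ∈ range al, hh al be a = (al : ℝ) / be * Hr be := by
  unfold hh
  rw [← Finset.mul_sum]
  have h := group_sum al be hal 0
  simp only [zero_add] at h
  rw [h]
  unfold Hr
  ring

theorem hh_le (al be : ℕ) (hal : 1 ≤ al) (hbe : 1 ≤ be) {D : ℝ} (hD : 0 ≤ D) :
    (al : ℝ) / be * ∑ b ∈ range be, 1 / (D + ((b : ℝ) + 1)) ≤
      ∑ a ∈ range al, 1 / (D + 1 / hh al be a) := by
  have h := group_sum al be hal D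
  have h2 : ∀ a ∈ range al, (1 / (be : ℝ)) * ∑ t ∈ range be, 1 / (D + cc al be a t) ≤
      1 / (D + 1 / hh al be a) := fun a _ => jensen be hbe (cc al be a) (cc_ge al be a) hD
  have h3 := Finset.sum_le_sum h2
  rw [← Finset.mul_sum, h] at h3
  calc (al : ℝ) / be * ∑ b ∈ range be, 1 / (D + ((b : ℝ) + 1))
      = 1 / (be : ℝ) * (al * ∑ b ∈ range be, 1 / (D + ((b : ℝ) + 1))) := by ring
    _ ≤ _ := h3

theorem hh_step {al be : ℕ} (hal : 1 ≤ al) (hab : al ≤ be) (a : ℕ) :
    1 / hh al be a + 1 ≤ 1 / hh al be (a + 1) := by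
  have hbe : 1 ≤ be := le_trans hal hab
  have h1 := jensen be hbe (cc al be a) (cc_ge al be a) (D := 1) (by norm_num)
  have hp := hh_pos (al := al) (be := be) (a := a) hbe
  have hp' := hh_pos (al := al) (be := be) (a := a + 1) hbe
  have hnr : (0 : ℝ) < be := by exact_mod_cast hbe
  have h2 : hh al be (a + 1) ≤ (1 / (be : ℝ)) * ∑ t ∈ range be, 1 / (1 + cc al be a t) := by
    unfold hh
    apply mul_le_mul_of_nonneg_left _ (by positivity)
    apply Finset.sum_le_sum
    intro t _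
    have hc := cc_ge al be a t
    apply one_div_le_one_div_of_le (by linarith)
    unfold cc
    have h3 : (be * a + t) / al + 1 ≤ (be * (a + 1) + t) / al := by
      rw [← Nat.add_div_right _ (by omega : 0 < al)]
      apply Nat.div_le_div_right
      nlinarith
    have h4 : (((be * a + t) / al : ℕ) : ℝ) + 1 ≤ (((be * (a + 1) + t) / al : ℕ) : ℝ) := by
      exact_mod_cast h3
    linarith
  have h3 : hh al be (a + 1) ≤ 1 / (1 + 1 / hh al be a) := le_trans h2 h1
  have h4 := one_div_le_one_div_of_le hp' h3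
  rw [one_div_one_div] at h4
  linarith

theorem hh_base {al be : ℕ} (hal : 1 ≤ al) (hab : al ≤ be) (a : ℕ) :
    (a : ℝ) + 1 ≤ 1 / hh al be a := by
  have hbe : 1 ≤ be := le_trans hal hab
  induction a with
  | zero =>
    have hp := hh_pos (al := al) (be := be) (a := 0) hbe
    rw [Nat.cast_zero, zero_add, le_div_iff₀ hp, one_mul]
    unfold hh
    have hnr : (0 : ℝ) < be := by exact_mod_cast hbe
    have : ∑ t ∈ range be, 1 / cc al be 0 t ≤ ∑ t ∈ range be, (1 : ℝ) := by
      apply Finset.sum_le_sum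
      intro t _
      have hc := cc_ge al be 0 t
      rw [div_le_one (by linarith)]; exact hc
    rw [Finset.sum_const, Finset.card_range, nsmul_eq_mul, mul_one] at this
    rw [one_div_mul_eq_div, div_le_one hnr]
    exact this
  | succ a ih =>
    have := hh_step hal hab a
    push_cast
    linarith

/-- Jensen for the harmonic mean -/
theorem hm_jensen (L al : ℕ) (hal : 1 ≤ al) (w : ℕ → ℝ) (hw : ∀ i, 0 ≤ w i)
    (hpos : 0 < ∑ i ∈ range L, w i) :
    ∑ i ∈ range L, w i * (1 / ∑ a ∈ range al, 1 / ((i : ℝ) + a + 1)) ≤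
      1 / ∑ a ∈ range al, 1 / (((a : ℝ) + 1) * ∑ i ∈ range L, w i + ∑ i ∈ range L, (i : ℝ) * w i) := by
  set P := ∑ i ∈ range L, w i with hP
  set Q := ∑ i ∈ range L, (i : ℝ) * w i with hQ
  have hQ0 : 0 ≤ Q := Finset.sum_nonneg (fun i _ => mul_nonneg (by positivity) (hw i))
  have he : ∀ a : ℕ, 0 < ((a : ℝ) + 1) * P + Q := fun a => by positivity
  set S := ∑ a ∈ range al, 1 / (((a : ℝ) + 1) * P + Q) with hS
  have hSp : 0 < S := by
    apply Finset.sum_pos
    · intro a _; exact one_div_pos.mpr (he a)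
    · exact ⟨0, Finset.mem_range.mpr hal⟩
  have hterm : ∀ i ∈ range L, w i * (1 / ∑ a ∈ range al, 1 / ((i : ℝ) + a + 1)) ≤
      w i * ∑ a ∈ range al, (1 / (((a : ℝ) + 1) * P + Q) / S) ^ 2 * ((i : ℝ) + a + 1) := by
    intro i _
    apply mul_le_mul_of_nonneg_left _ (hw i)
    have hT : 0 < ∑ a ∈ range al, 1 / ((i : ℝ) + a + 1) := by
      apply Finset.sum_pos
      · intro a _; positivity
      · exact ⟨0, Finset.mem_range.mpr hal⟩
    rw [div_le_iff₀ hT]
    have hcs := Finset.sum_sq_le_sum_mul_sum_of_sq_le_mul (range al)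
      (r := fun a : ℕ => 1 / (((a : ℝ) + 1) * P + Q) / S)
      (f := fun a : ℕ => (1 / (((a : ℝ) + 1) * P + Q) / S) ^ 2 * ((i : ℝ) + a + 1))
      (g := fun a : ℕ => 1 / ((i : ℝ) + a + 1))
      (fun a _ => by positivity) (fun a _ => by positivity)
      (fun a _ => le_of_eq (by
        have : (i : ℝ) + a + 1 ≠ 0 := by positivity
        rw [mul_assoc, mul_one_div_cancel this, mul_one]))
    rw [← Finset.sum_div, ← hS, div_self hSp.ne'] at hcs
    linarith
  refine le_trans (Finset.sum_le_sum hterm) (le_of_eq ?_)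
  have e1 : ∑ i ∈ range L, w i *
      ∑ a ∈ range al, (1 / (((a : ℝ) + 1) * P + Q) / S) ^ 2 * ((i : ℝ) + a + 1) =
      ∑ a ∈ range al, (1 / (((a : ℝ) + 1) * P + Q) / S) ^ 2 * (((a : ℝ) + 1) * P + Q) := by
    simp_rw [Finset.mul_sum]
    rw [Finset.sum_comm]
    apply Finset.sum_congr rfl
    intro a _
    rw [hP, hQ, Finset.mul_sum, ← Finset.sum_add_distrib, Finset.mul_sum]
    apply Finset.sum_congr rfl
    intro i _
    ring
  rw [e1]
  have e2 : ∀ a ∈ range al, (1 / (((a : ℝ) + 1) * P + Q) / S) ^ 2 * (((a : ℝ) + 1) * P + Q) =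
      1 / (((a : ℝ) + 1) * P + Q) / S ^ 2 := by
    intro a _
    have := (he a).ne'
    field_simp
  rw [Finset.sum_congr rfl e2, ← Finset.sum_div, ← hS]
  field_simp

end Pool.Agent.Helper66.Spread
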