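import Mathlib

set_option autoImplicit false

namespace Pool.Agent.Helper66.Spread

open Finset

/-- hypergeometric weights -/
noncomputable def wt (A n j i : ℕ) : ℝ :=
  (A.choose i : ℝ) * (if i ≤ j then (n.choose (j - i) : ℝ) else 0)

theorem wt_nonneg (A n j i : ℕ) : 0 ≤ wt A n j i := by
  unfold wt; split_ifs <;> positivity

theorem wt_zero {A n j i : ℕ} (h : j < i) : wt A n j i = 0 := by
  unfold wt; rw [if_neg (by omega)]; simp

theorem chR (A i : ℕ) : (A.choose (i + 1) : ℝ) * ((i : ℝ) + 1) = (A.choose i : ℝ) * ((A : ℝ) - i) := by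
  have h := Nat.choose_succ_right_eq A i
  rcases Nat.lt_or_ge A i with hlt | hge
  · rw [Nat.choose_eq_zero_of_lt hlt, Nat.choose_eq_zero_of_lt (by omega)]; simp
  · have h2 : ((A.choose (i + 1) * (i + 1) : ℕ) : ℝ) = ((A.choose i * (A - i) : ℕ) : ℝ) := by
      exact_mod_cast h
    push_cast [Nat.cast_sub hge] at h2
    exact h2

theorem wt_rec (A n j i : ℕ) :
    ((i : ℝ) + 1) * ((n : ℝ) - j + i + 1) * wt A n j (i + 1) =
      ((A : ℝ) - i) * ((j : ℝ) - i) * wt A n j i := by
  rcases Nat.lt_or_ge i j with hlt | hge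
  · unfold wt
    rw [if_pos (by omega), if_pos (by omega)]
    obtain ⟨k, hk⟩ : ∃ k, j = i + 1 + k := ⟨j - (i + 1), by omega⟩
    subst hk
    have e1 : i + 1 + k - (i + 1) = k := by omega
    have e2 : i + 1 + k - i = k + 1 := by omega
    rw [e1, e2]
    have h1 := chR A i
    have h2 := chR n k
    push_cast
    have : ((n : ℝ) - ((i : ℝ) + 1 + k) + i + 1) = (n : ℝ) - k := by ring
    rw [this]
    have : ((i : ℝ) + 1 + k - i) = (k : ℝ) + 1 := by ring
    rw [this]
    calc ((i : ℝ) + 1) * ((n : ℝ) - k) * ((A.choose (i + 1) : ℝ) * (n.choose k : ℝ))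
        = ((A.choose (i + 1) : ℝ) * ((i : ℝ) + 1)) * ((n.choose k : ℝ) * ((n : ℝ) - k)) := by ring
      _ = ((A.choose i : ℝ) * ((A : ℝ) - i)) * ((n.choose (k + 1) : ℝ) * ((k : ℝ) + 1)) := by
          rw [h1, h2]
      _ = _ := by ring
  · rcases Nat.lt_or_ge j i with h | h
    · rw [wt_zero h, wt_zero (by omega)]; simp
    · have : i = j := by omega
      subst this
      rw [wt_zero (by omega)]; simp

/-- telescoping quantity -/
noncomputable def Uq (A n j i : ℕ) : ℝ := (i : ℝ) * ((n : ℝ) - j + i) * wt A n j i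

theorem Uq_tel (A n j i : ℕ) :
    Uq A n j i - Uq A n j (i + 1) = wt A n j i * ((i : ℝ) * ((n : ℝ) + A) - A * j) := by
  have h := wt_rec A n j i
  unfold Uq
  push_cast
  have e : ((i : ℝ) + 1) * ((n : ℝ) - j + ((i : ℝ) + 1)) * wt A n j (i + 1) =
      ((i : ℝ) + 1) * ((n : ℝ) - j + i + 1) * wt A n j (i + 1) := by ring
  rw [e, h]; ring

theorem Uq_zero (A n j : ℕ) : Uq A n j 0 = 0 := by unfold Uq; simp

theorem Uq_big {A n j i : ℕ} (h : j < i) : Uq A n j i = 0 := by unfold Uq; rw [wt_zero h]; simp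

theorem sum_tel (A n j r : ℕ) :
    ∑ i ∈ range r, wt A n j i * ((i : ℝ) * ((n : ℝ) + A) - A * j) = - Uq A n j r := by
  induction r with
  | zero => simp [Uq_zero]
  | succ r ih => rw [sum_range_succ, ih, ← Uq_tel]; ring

theorem sum_tel2 (A n j r : ℕ) (c : ℝ) :
    ∑ i ∈ range r, ((i : ℝ) - c) * (wt A n j i * ((i : ℝ) * ((n : ℝ) + A) - A * j)) =
      - (((r : ℝ) - c) * Uq A n j r) + ∑ i ∈ range r, Uq A n j i + Uq A n j r := by
  induction r with
  | zero => simp [Uq_zero]
  | succ r ih =>
    rw [sum_range_succ, ih, sum_range_succ (fun i => Uq A n j i), ← Uq_tel]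
    push_cast
    ring

theorem sum_wt (A n j R : ℕ) (hR : j < R) : ∑ i ∈ range R, wt A n j i = ((A + n).choose j : ℝ) := by
  obtain ⟨k, rfl⟩ : ∃ k, R = j + 1 + k := ⟨R - (j + 1), by omega⟩
  rw [Finset.sum_range_add]
  have h0 : ∑ x ∈ range k, wt A n j (j + 1 + x) = 0 :=
    Finset.sum_eq_zero (fun x _ => wt_zero (by omega))
  rw [h0, add_zero, Nat.add_choose_eq, Nat.sum_antidiagonal_eq_sum_range_succ_mk]
  push_cast
  apply Finset.sum_congr rfl
  intro i hi
  have : i ≤ j := by have := Finset.mem_range.mp hi; omega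
  unfold wt
  rw [if_pos this]

theorem choose_lc1 (n a b : ℕ) (h : a ≤ b) :
    n.choose a * n.choose (b + 1) ≤ n.choose b * n.choose (a + 1) := by
  have h1 := Nat.choose_succ_right_eq n a
  have h2 := Nat.choose_succ_right_eq n b
  have hpos : 0 < (a + 1) * (b + 1) := by positivity
  apply Nat.le_of_mul_le_mul_right _ hpos
  calc n.choose a * n.choose (b + 1) * ((a + 1) * (b + 1))
      = n.choose a * (a + 1) * (n.choose (b + 1) * (b + 1)) := by ring
    _ = n.choose a * (a + 1) * (n.choose b * (n - b)) := by rw [h2]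
    _ = n.choose a * n.choose b * ((a + 1) * (n - b)) := by ring
    _ ≤ n.choose a * n.choose b * ((b + 1) * (n - a)) :=
        Nat.mul_le_mul_left _ (Nat.mul_le_mul (by omega) (by omega))
    _ = n.choose b * (b + 1) * (n.choose a * (n - a)) := by ring
    _ = n.choose b * (b + 1) * (n.choose (a + 1) * (a + 1)) := by rw [h1]
    _ = _ := by ring

theorem choose_lc (n a b t : ℕ) (h : a ≤ b) :
    n.choose a * n.choose (b + t) ≤ n.choose b * n.choose (a + t) := by
  induction t with
  | zero => simp [mul_comm]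
  | succ t ih =>
    rcases Nat.eq_zero_or_pos (n.choose (b + t)) with h0 | hpos
    · have : n.choose (b + (t + 1)) = 0 := by
        rw [Nat.choose_eq_zero_iff] at h0 ⊢; omega
      rw [this]; simp
    · have hpa : 0 < n.choose (a + t) := by
        apply Nat.pos_of_ne_zero
        intro h0
        rw [Nat.choose_eq_zero_iff] at h0
        have : n.choose (b + t) = 0 := by rw [Nat.choose_eq_zero_iff]; omega
        omega
      have h1 := choose_lc1 n (a + t) (b + t) (by omega)
      have hp : 0 < n.choose (b + t) * n.choose (a + t) := Nat.mul_pos hpos hpa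
      apply Nat.le_of_mul_le_mul_right _ hp
      calc n.choose a * n.choose (b + (t + 1)) * (n.choose (b + t) * n.choose (a + t))
          = (n.choose a * n.choose (b + t)) * (n.choose (a + t) * n.choose (b + t + 1)) := by
            rw [← add_assoc]; ring
        _ ≤ (n.choose b * n.choose (a + t)) * (n.choose (b + t) * n.choose (a + t + 1)) :=
            Nat.mul_le_mul ih h1
        _ = _ := by rw [← add_assoc]; ring

/-- monotone likelihood ratio -/
theorem wt_mlr (A n j j' i k : ℕ) (hj : j ≤ j') (hik : i ≤ k) :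
    wt A n j k * wt A n j' i ≤ wt A n j i * wt A n j' k := by
  rcases Nat.lt_or_ge j k with h | h
  · rw [wt_zero h, zero_mul]; exact mul_nonneg (wt_nonneg _ _ _ _) (wt_nonneg _ _ _ _)
  · unfold wt
    rw [if_pos h, if_pos (by omega : i ≤ j'), if_pos (by omega : i ≤ j), if_pos (by omega : k ≤ j')]
    have h1 := choose_lc n (j - k) (j - i) (j' - j) (by omega)
    have e1 : j - i + (j' - j) = j' - i := by omega
    have e2 : j - k + (j' - j) = j' - k := by omega
    rw [e1, e2] at h1
    have h2 : ((n.choose (j - k) : ℝ) * n.choose (j' - i)) ≤ (n.choose (j - i) : ℝ) * n.choose (j' - k) := by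
      exact_mod_cast h1
    have h3 : (0 : ℝ) ≤ (A.choose k : ℝ) * A.choose i := by positivity
    have := mul_le_mul_of_nonneg_left h2 h3
    nlinarith

/-- ratio monotonicity under a monotone likelihood ratio -/
theorem ratio_mono (R : ℕ) (w w' f g : ℕ → ℝ)
    (hw : ∀ i k, i ≤ k → w k * w' i ≤ w i * w' k)
    (hf : ∀ i k, i ≤ k → f i * g k ≤ f k * g i) :
    (∑ i ∈ range R, f i * w i) * (∑ i ∈ range R, g i * w' i) ≤
      (∑ i ∈ range R, f i * w' i) * (∑ i ∈ range R, g i * w i) := by
  rw [Finset.sum_mul_sum, Finset.sum_mul_sum]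
  have key : ∀ i k, 0 ≤ (f i * w' i * (g k * w k) - f i * w i * (g k * w' k)) +
      (f k * w' k * (g i * w i) - f k * w k * (g i * w' i)) := by
    intro i k
    have e : (f i * w' i * (g k * w k) - f i * w i * (g k * w' k)) +
      (f k * w' k * (g i * w i) - f k * w k * (g i * w' i)) =
      (f k * g i - f i * g k) * (w i * w' k - w k * w' i) := by ring
    rw [e]
    rcases le_total i k with h | h
    · exact mul_nonneg (sub_nonneg.mpr (hf i k h)) (sub_nonneg.mpr (hw i k h))
    · have h1 := hf k i h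
      have h2 := hw k i h
      exact mul_nonneg_of_nonpos_of_nonpos (by linarith) (by linarith)
  set F : ℕ → ℕ → ℝ := fun i k => f i * w' i * (g k * w k) - f i * w i * (g k * w' k) with hF
  have h1 : ∑ i ∈ range R, ∑ k ∈ range R, F k i = ∑ i ∈ range R, ∑ k ∈ range R, F i k :=
    Finset.sum_comm
  have h2 : 0 ≤ ∑ i ∈ range R, ∑ k ∈ range R, (F i k + F k i) :=
    Finset.sum_nonneg (fun i _ => Finset.sum_nonneg (fun k _ => key i k))
  have h3 : ∑ i ∈ range R, ∑ k ∈ range R, (F i k + F k i) =
      ∑ i ∈ range R, ∑ k ∈ range R, F i k + ∑ i ∈ range R, ∑ k ∈ range R, F k i := by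
    rw [← Finset.sum_add_distrib]
    exact Finset.sum_congr rfl (fun i _ => Finset.sum_add_distrib)
  have h4 : ∑ i ∈ range R, ∑ k ∈ range R, F i k =
      (∑ i ∈ range R, ∑ k ∈ range R, f i * w' i * (g k * w k)) -
      ∑ i ∈ range R, ∑ k ∈ range R, f i * w i * (g k * w' k) := by
    rw [← Finset.sum_sub_distrib]
    exact Finset.sum_congr rfl (fun i _ => by rw [← Finset.sum_sub_distrib])
  linarith

end Pool.Agent.Helper66.Spread
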